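import Mathlib

set_option autoImplicit false

namespace Pool.Agent.H515R3.KC

/-- An edge of an `r`-partite `r`-graph: the set of vertices `(i, e i)`, one from each part;
the `i`-th part is the set of pairs `(i, n)` with `n` a natural number. -/
abbrev Edge (r : ℕ) := Fin r → ℕ

/-- Two edges share a vertex. -/
def Meets {r : ℕ} (e f : Edge r) : Prop := ∃ i : Fin r, e i = f i

/-- `C` is a cover of the hypergraph with edge set `H`. -/
def IsCover {r : ℕ} (H : Finset (Edge r)) (C : Finset (Fin r × ℕ)) : Prop :=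
  ∀ e ∈ H, ∃ i : Fin r, (i, e i) ∈ C

/-- The cover number of `H` is at most `t`. -/
def TauLE {r : ℕ} (H : Finset (Edge r)) (t : ℕ) : Prop :=
  ∃ C : Finset (Fin r × ℕ), C.card ≤ t ∧ IsCover H C

/-- `H` has intersecting edge-covers for `k` edges. -/
def HasEdgeCovers {r : ℕ} (H : Finset (Edge r)) (k : ℕ) : Prop :=
  ∃ g : Finset (Edge r) → Edge r,
    (∀ S : Finset (Edge r), S ⊆ H → S.card ≤ k → g S ∈ H ∧ ∀ e ∈ S, Meets (g S) e) ∧
    (∀ S S' : Finset (Edge r), S ⊆ H → S.card ≤ k → S' ⊆ H → S'.card ≤ k →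
      Meets (g S) (g S'))

/-- The positive integers `k` such that every `r`-partite `r`-graph with intersecting
edge-covers for `k` edges has cover number at most `t`. -/
def Good (r t : ℕ) : Set ℕ :=
  {k | 1 ≤ k ∧ ∀ H : Finset (Edge r), HasEdgeCovers H k → TauLE H t}

/-- The parameter `kc_r(t)`, the least element of `Good r t`. -/
noncomputable def kc (r t : ℕ) : ℕ := sInf (Good r t)

/-! ### Upper bound -/

/-- The moment vector of an edge. -/
def U {r : ℕ} (e : Edge r) : Finset (Fin r) → ℚ := fun A => ∏ i ∈ A, (e i : ℚ)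

/-- The linear functional attached to an edge. -/
def Phi {r : ℕ} (h : Edge r) (u : Finset (Fin r) → ℚ) : ℚ :=
  ∑ A ∈ (Finset.univ : Finset (Fin r)).powerset,
    u A * ∏ i ∈ (Finset.univ : Finset (Fin r)) \ A, (-(h i : ℚ))

lemma Phi_U {r : ℕ} (h e : Edge r) : Phi h (U e) = ∏ i, ((e i : ℚ) - (h i : ℚ)) := by
  unfold Phi U
  have := Finset.prod_add (fun i => (e i : ℚ)) (fun i => (-(h i : ℚ)))
    (Finset.univ : Finset (Fin r))
  simp only [← sub_eq_add_neg] at this
  rw [this]

lemma Phi_U_eq_zero {r : ℕ} {h e : Edge r} (hm : Meets e h) : Phi h (U e) = 0 := by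
  rw [Phi_U]
  obtain ⟨i, hi⟩ := hm
  exact Finset.prod_eq_zero (Finset.mem_univ i) (by rw [hi, sub_self])

lemma Phi_U_ne_zero {r : ℕ} {h e : Edge r} (hm : ¬ Meets e h) : Phi h (U e) ≠ 0 := by
  rw [Phi_U, Finset.prod_ne_zero_iff]
  intro i _ h0
  apply hm
  refine ⟨i, ?_⟩
  have := sub_eq_zero.mp h0
  exact_mod_cast this

lemma Phi_sum {r : ℕ} {ι : Type*} (s : Finset ι) (h : Edge r) (c : ι → ℚ)
    (v : ι → Finset (Fin r) → ℚ) :
    Phi h (∑ x ∈ s, c x • v x) = ∑ x ∈ s, c x * Phi h (v x) := by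
  unfold Phi
  simp only [Finset.sum_apply, Pi.smul_apply, smul_eq_mul, Finset.sum_mul, Finset.mul_sum]
  rw [Finset.sum_comm]
  refine Finset.sum_congr rfl fun x _ => Finset.sum_congr rfl fun A _ => ?_
  ring

lemma Phi_zero {r : ℕ} (h : Edge r) : Phi h 0 = 0 := by
  unfold Phi
  simp

lemma Phi_add {r : ℕ} (h : Edge r) (u v : Finset (Fin r) → ℚ) :
    Phi h (u + v) = Phi h u + Phi h v := by
  unfold Phi
  simp only [Pi.add_apply, add_mul, Finset.sum_add_distrib]

lemma Meets.symm {r : ℕ} {e f : Edge r} (h : Meets e f) : Meets f e := by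
  obtain ⟨i, hi⟩ := h
  exact ⟨i, hi.symm⟩

/-- The skew family bound. -/
lemma card_le {r : ℕ} (hr : 1 ≤ r) (S : Finset (Edge r)) (f : S → Edge r)
    (h1 : ∀ s : S, ¬ Meets (f s) s.1) (h2 : ∀ s t : S, s ≠ t → Meets (f s) t.1)
    (h3 : ∀ s t : S, Meets (f s) (f t)) : S.card ≤ 2 ^ (r - 1) := by
  classical
  let v : S ⊕ S → (Finset (Fin r) → ℚ) := Sum.elim (fun s => U (f s)) (fun s => U s.1)
  have hli : LinearIndependent ℚ v := by
    rw [Fintype.linearIndependent_iff]
    intro c hc
    rw [Fintype.sum_sum_type] at hc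
    simp only [v, Sum.elim_inl, Sum.elim_inr] at hc
    have hr' : ∀ t : S, c (Sum.inr t) = 0 := by
      intro t
      have := congrArg (Phi (f t)) hc
      rw [Phi_add, Phi_sum, Phi_sum, Phi_zero] at this
      have e1 : ∑ x : S, c (Sum.inl x) * Phi (f t) (U (f x)) = 0 :=
        Finset.sum_eq_zero fun x _ => by rw [Phi_U_eq_zero (h3 x t), mul_zero]
      have e2 : ∑ x : S, c (Sum.inr x) * Phi (f t) (U x.1)
          = c (Sum.inr t) * Phi (f t) (U t.1) := by
        refine Finset.sum_eq_single t ?_ ?_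
        · intro x _ hx
          rw [Phi_U_eq_zero (h2 t x (Ne.symm hx)).symm, mul_zero]
        · intro h; exact absurd (Finset.mem_univ t) h
      rw [e1, e2, zero_add] at this
      rcases mul_eq_zero.mp this with h | h
      · exact h
      · exact absurd h (Phi_U_ne_zero (fun hm => h1 t hm.symm))
    have hl' : ∀ t : S, c (Sum.inl t) = 0 := by
      intro t
      have := congrArg (Phi t.1) hc
      rw [Phi_add, Phi_sum, Phi_sum, Phi_zero] at this
      have e1 : ∑ x : S, c (Sum.inr x) * Phi t.1 (U x.1) = 0 :=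
        Finset.sum_eq_zero fun x _ => by rw [hr' x, zero_mul]
      have e2 : ∑ x : S, c (Sum.inl x) * Phi t.1 (U (f x))
          = c (Sum.inl t) * Phi t.1 (U (f t)) := by
        refine Finset.sum_eq_single t ?_ ?_
        · intro x _ hx
          rw [Phi_U_eq_zero (h2 x t hx), mul_zero]
        · intro h; exact absurd (Finset.mem_univ t) h
      rw [e1, e2, add_zero] at this
      rcases mul_eq_zero.mp this with h | h
      · exact h
      · exact absurd h (Phi_U_ne_zero (h1 t))
    rintro (s | s)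
    · exact hl' s
    · exact hr' s
  have hcard := hli.fintype_card_le_finrank
  rw [Fintype.card_sum, Module.finrank_fintype_fun_eq_card, Fintype.card_finset,
    Fintype.card_fin, Fintype.card_coe] at hcard
  have h2r : 2 ^ r = 2 * 2 ^ (r - 1) := by
    obtain ⟨m, rfl⟩ : ∃ m, r = m + 1 := ⟨r - 1, by omega⟩
    simp [pow_succ, mul_comm]
  omega

lemma tau_of_meets {r : ℕ} (H : Finset (Edge r)) (f : Edge r) (h : ∀ e ∈ H, Meets f e) :
    TauLE H r := by
  classical
  refine ⟨Finset.univ.image (fun i : Fin r => (i, f i)), ?_, ?_⟩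
  · exact (Finset.card_image_le).trans (by simp)
  · intro e he
    obtain ⟨i, hi⟩ := h e he
    exact ⟨i, Finset.mem_image.mpr ⟨i, Finset.mem_univ i, by rw [hi]⟩⟩

theorem upper {r : ℕ} (hr : 1 ≤ r) (H : Finset (Edge r))
    (hH : HasEdgeCovers H (2 ^ (r - 1))) : TauLE H r := by
  classical
  by_contra hτ
  obtain ⟨g, hg1, hg2⟩ := hH
  set k := 2 ^ (r - 1) with hk
  let Un : Finset (Finset (Edge r)) := H.powerset.filter
    (fun S => ∀ T : Finset (Edge r), T ⊆ H → T.card ≤ k → ∃ e ∈ S, ¬ Meets (g T) e)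
  have hHU : H ∈ Un := by
    simp only [Un, Finset.mem_filter, Finset.mem_powerset]
    refine ⟨Finset.Subset.refl _, ?_⟩
    intro T _ _
    by_contra hcon
    push Not at hcon
    exact hτ (tau_of_meets H (g T) hcon)
  obtain ⟨S, hS, hmin⟩ := Finset.exists_min_image Un Finset.card ⟨H, hHU⟩
  have hS' := hS
  simp only [Un, Finset.mem_filter, Finset.mem_powerset] at hS'
  obtain ⟨hSH, hSn⟩ := hS'
  have hex : ∀ s : S, ∃ T : Finset (Edge r), T ⊆ H ∧ T.card ≤ k ∧
      ∀ e ∈ S.erase s.1, Meets (g T) e := by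
    intro s
    by_contra hcon
    push Not at hcon
    have hmem : S.erase s.1 ∈ Un := by
      simp only [Un, Finset.mem_filter, Finset.mem_powerset]
      exact ⟨(Finset.erase_subset _ _).trans hSH, hcon⟩
    have h1 := hmin _ hmem
    have h2 := Finset.card_erase_lt_of_mem s.2
    omega
  choose T hTH hTk hT using hex
  have hcard := card_le hr S (fun s => g (T s))
    (by
      intro s hm
      obtain ⟨e, heS, he⟩ := hSn (T s) (hTH s) (hTk s)
      by_cases hes : e = s.1
      · exact he (hes ▸ hm)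
      · exact he (hT s e (Finset.mem_erase.mpr ⟨hes, heS⟩)))
    (by
      intro s t hst
      exact hT s t.1 (Finset.mem_erase.mpr ⟨fun h => hst (Subtype.ext h.symm), t.2⟩))
    (by
      intro s t
      exact hg2 _ _ (hTH s) (hTk s) (hTH t) (hTk t))
  obtain ⟨e, heS, he⟩ := hSn S hSH hcard
  exact he ((hg1 S hSH hcard).2 e heS)

theorem pow_mem_Good {r : ℕ} (hr : 1 ≤ r) : 2 ^ (r - 1) ∈ Good r r :=
  ⟨Nat.one_le_two_pow, fun H hH => upper hr H hH⟩

end Pool.Agent.H515R3.KC
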