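import Pool.Agent.H515R3.KC

set_option autoImplicit false

namespace Pool.Agent.H515R3.KC

/-- The edge with labels the binary digits of `c`. -/
def ev (r c : ℕ) : Edge r := fun i => if c.testBit i.1 then 1 else 0

theorem lower_abs (r : ℕ) (F : Finset ℕ)
    (hF : ∀ c ∈ F, ∀ d ∈ F, Meets (ev r c) (ev r d))
    (hchk : ∀ C : Finset (Fin r × ℕ), C.card ≤ r → ∃ e : Edge r, (∀ i, (i, e i) ∉ C) ∧
      (∀ i, e i < r + 3) ∧
      ∀ c ∈ F, ∀ d ∈ F, ¬ Meets (ev r c) e → ¬ Meets (ev r d) e → c = d)
    (k : ℕ) (hk : k < F.card) :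
    ∃ H : Finset (Edge r), HasEdgeCovers H k ∧ ¬ TauLE H r := by
  classical
  let H : Finset (Edge r) := (Fintype.piFinset (fun _ : Fin r => Finset.range (r + 3))).filter
    (fun e => ∀ c ∈ F, ∀ d ∈ F, ¬ Meets (ev r c) e → ¬ Meets (ev r d) e → c = d)
  have hmemH : ∀ e : Edge r, e ∈ H ↔ (∀ i, e i < r + 3) ∧
      ∀ c ∈ F, ∀ d ∈ F, ¬ Meets (ev r c) e → ¬ Meets (ev r d) e → c = d := by
    intro e
    simp only [H, Finset.mem_filter, Fintype.mem_piFinset, Finset.mem_range]
  have key : ∀ S : Finset (Edge r), S ⊆ H → S.card ≤ k → ∃ c ∈ F, ∀ e ∈ S, Meets (ev r c) e := by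
    intro S hS hSk
    by_contra hcon
    push Not at hcon
    choose! φ hφ1 hφ2 using hcon
    obtain ⟨c, hc, d, hd, hcd, heq⟩ := Finset.exists_ne_map_eq_of_card_lt_of_maps_to
      (lt_of_le_of_lt hSk hk) (f := φ) hφ1
    apply hcd
    refine ((hmemH (φ c)).1 (hS (hφ1 c hc))).2 c hc d hd (hφ2 c hc) ?_
    rw [heq]
    exact hφ2 d hd
  have hevH : ∀ c ∈ F, ev r c ∈ H := by
    intro c hc
    rw [hmemH]
    refine ⟨?_, ?_⟩
    · intro i
      unfold ev
      split_ifs <;> omega
    · intro a ha b hb hna _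
      exact absurd (hF a ha c hc) hna
  refine ⟨H, ⟨fun S => if h : S ⊆ H ∧ S.card ≤ k then ev r (Classical.choose (key S h.1 h.2))
    else fun _ => 0, ?_, ?_⟩, ?_⟩
  · intro S hS hSk
    have hs := Classical.choose_spec (key S hS hSk)
    simp only [hS, hSk, and_self, dite_true]
    exact ⟨hevH _ hs.1, hs.2⟩
  · intro S S' hS hSk hS' hSk'
    have hs := Classical.choose_spec (key S hS hSk)
    have hs' := Classical.choose_spec (key S' hS' hSk')
    simp only [hS, hSk, hS', hSk', and_self, dite_true]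
    exact hF _ hs.1 _ hs'.1
  · rintro ⟨C, hC, hcov⟩
    obtain ⟨e, he1, he2, he3⟩ := hchk C hC
    obtain ⟨i, hi⟩ := hcov e ((hmemH e).2 ⟨he2, he3⟩)
    exact he1 i hi

/-- Number of binary digits equal to one among the last `r`. -/
def popc (r n : ℕ) : ℕ := ((List.range r).filter (fun i => n.testBit i)).length

/-- The label (as a Boolean) of the test edge in position `i`. -/
def vb (n m b i : ℕ) : Bool := if n.testBit i then true else if m.testBit i then false
  else b.testBit i

/-- The binary word `c` misses the test edge. -/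
def missb (r n m b c : ℕ) : Bool :=
  (List.range r).all (fun i => (n.testBit i && m.testBit i) || (c.testBit i != vb n m b i))

/-- The finite check. -/
def Chk (r : ℕ) (L : List ℕ) : Prop :=
  ∀ n < 2 ^ r, ∀ m < 2 ^ r, popc r n + popc r m ≤ r →
    ∃ b < 2 ^ r, (L.filter (missb r n m b)).length ≤ 1

instance (r : ℕ) (L : List ℕ) : Decidable (Chk r L) := by
  unfold Chk
  infer_instance

lemma countP_range (p : ℕ → Bool) (r : ℕ) :
    (List.range r).countP p = ∑ i ∈ Finset.range r, (if p i = true then 1 else 0) := by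
  induction r with
  | zero => rfl
  | succ r ih =>
    rw [List.range_succ, List.countP_append, ih, Finset.sum_range_succ, List.countP_singleton]

lemma popc_eq (r n : ℕ) :
    popc r n = (Finset.univ.filter (fun i : Fin r => n.testBit i.1 = true)).card := by
  unfold popc
  rw [← List.countP_eq_length_filter, Finset.card_filter, countP_range,
    Fin.sum_univ_eq_sum_range (fun i => if n.testBit i = true then 1 else 0) r]

theorem hchk_of_Chk (r : ℕ) (L : List ℕ) (h : Chk r L) (C : Finset (Fin r × ℕ))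
    (hC : C.card ≤ r) : ∃ e : Edge r, (∀ i, (i, e i) ∉ C) ∧ (∀ i, e i < r + 3) ∧
      ∀ c ∈ L.toFinset, ∀ d ∈ L.toFinset, ¬ Meets (ev r c) e → ¬ Meets (ev r d) e → c = d := by
  classical
  -- a fresh label
  obtain ⟨w, hw, hwC⟩ : ∃ w ∈ Finset.Ico 2 (r + 3), w ∉ C.image Prod.snd := by
    apply Finset.exists_mem_notMem_of_card_lt_card
    rw [Nat.card_Ico]
    have := Finset.card_image_le (s := C) (f := Prod.snd)
    omega
  rw [Finset.mem_Ico] at hw
  let fn : Fin r → Bool := fun i => decide ((i, 0) ∈ C)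
  let fm : Fin r → Bool := fun i => decide ((i, 1) ∈ C)
  let n := Nat.ofBits fn
  let m := Nat.ofBits fm
  have hn : ∀ i : Fin r, n.testBit i.1 = decide ((i, 0) ∈ C) := by
    intro i
    simp only [n, Nat.testBit_ofBits_lt fn i.1 i.2, fn]
  have hm : ∀ i : Fin r, m.testBit i.1 = decide ((i, 1) ∈ C) := by
    intro i
    simp only [m, Nat.testBit_ofBits_lt fm i.1 i.2, fm]
  have hnlt : n < 2 ^ r := Nat.ofBits_lt_two_pow fn
  have hmlt : m < 2 ^ r := Nat.ofBits_lt_two_pow fm
  have hpop : popc r n + popc r m ≤ r := by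
    rw [popc_eq, popc_eq]
    simp only [hn, hm, decide_eq_true_eq]
    refine le_trans ?_ hC
    have hA : ((Finset.univ.filter (fun i : Fin r => (i, 0) ∈ C)).image
        (fun i => ((i, 0) : Fin r × ℕ))).card
        = (Finset.univ.filter (fun i : Fin r => (i, 0) ∈ C)).card :=
      Finset.card_image_of_injective _ (fun a b hab => (Prod.mk.inj hab).1)
    have hB : ((Finset.univ.filter (fun i : Fin r => (i, 1) ∈ C)).image
        (fun i => ((i, 1) : Fin r × ℕ))).card
        = (Finset.univ.filter (fun i : Fin r => (i, 1) ∈ C)).card :=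
      Finset.card_image_of_injective _ (fun a b hab => (Prod.mk.inj hab).1)
    rw [← hA, ← hB, ← Finset.card_union_of_disjoint]
    · apply Finset.card_le_card
      intro x hx
      rw [Finset.mem_union, Finset.mem_image, Finset.mem_image] at hx
      rcases hx with ⟨i, hi, rfl⟩ | ⟨i, hi, rfl⟩
      · exact (Finset.mem_filter.mp hi).2
      · exact (Finset.mem_filter.mp hi).2
    · rw [Finset.disjoint_left]
      intro x hx hx'
      rw [Finset.mem_image] at hx hx'
      obtain ⟨i, _, rfl⟩ := hx
      obtain ⟨j, _, hj⟩ := hx'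
      exact absurd (Prod.mk.inj hj).2 (by norm_num)
  obtain ⟨b, _, hb⟩ := h n hnlt m hmlt hpop
  let e : Edge r := fun i => if n.testBit i.1 && m.testBit i.1 then w
    else if vb n m b i.1 then 1 else 0
  have hmiss : ∀ c, ¬ Meets (ev r c) e → missb r n m b c = true := by
    intro c hc
    unfold missb
    rw [List.all_eq_true]
    intro i hi
    rw [List.mem_range] at hi
    have hne : ev r c ⟨i, hi⟩ ≠ e ⟨i, hi⟩ := fun heq => hc ⟨⟨i, hi⟩, heq⟩
    simp only [ev, e] at hne
    cases h1 : (n.testBit i && m.testBit i)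
    · rw [h1] at hne
      simp only [Bool.false_eq_true, if_false] at hne
      cases h2 : c.testBit i <;> cases h3 : vb n m b i <;> simp_all
    · simp
  refine ⟨e, ?_, ?_, ?_⟩
  · intro i hi
    simp only [e] at hi
    by_cases h0 : (i, 0) ∈ C <;> by_cases h1 : (i, 1) ∈ C
    · have : (n.testBit i.1 && m.testBit i.1) = true := by rw [hn, hm]; simp [h0, h1]
      rw [this] at hi
      simp only [if_true] at hi
      exact hwC (Finset.mem_image.mpr ⟨_, hi, rfl⟩)
    · have h2 : (n.testBit i.1 && m.testBit i.1) = false := by rw [hn, hm]; simp [h1]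
      have h3 : vb n m b i.1 = true := by unfold vb; rw [hn]; simp [h0]
      rw [h2, h3] at hi
      simp only [Bool.false_eq_true, if_false, if_true] at hi
      exact h1 hi
    · have h2 : (n.testBit i.1 && m.testBit i.1) = false := by rw [hn, hm]; simp [h0]
      have h3 : vb n m b i.1 = false := by unfold vb; rw [hn, hm]; simp [h0, h1]
      rw [h2, h3] at hi
      simp only [Bool.false_eq_true, if_false] at hi
      exact h0 hi
    · have h2 : (n.testBit i.1 && m.testBit i.1) = false := by rw [hn, hm]; simp [h0]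
      rw [h2] at hi
      simp only [Bool.false_eq_true, if_false] at hi
      split_ifs at hi
      · exact h1 hi
      · exact h0 hi
  · intro i
    simp only [e]
    split_ifs <;> omega
  · intro c hc d hd hnc hnd
    have hc' : c ∈ L.filter (missb r n m b) :=
      List.mem_filter.mpr ⟨List.mem_toFinset.mp hc, hmiss c hnc⟩
    have hd' : d ∈ L.filter (missb r n m b) :=
      List.mem_filter.mpr ⟨List.mem_toFinset.mp hd, hmiss d hnd⟩
    generalize L.filter (missb r n m b) = L' at hb hc' hd'
    match L', hb, hc', hd' with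
    | [], _, hc', _ => exact absurd hc' (by simp)
    | [x], _, hc', hd' =>
      rw [List.mem_singleton] at hc' hd'
      rw [hc', hd']
    | x :: y :: l, hb, _, _ => simp at hb

/-- Pairwise agreement in some position. -/
def Agree (r : ℕ) (L : List ℕ) : Prop :=
  ∀ c ∈ L, ∀ d ∈ L, ∃ i < r, c.testBit i = d.testBit i

instance (r : ℕ) (L : List ℕ) : Decidable (Agree r L) := by
  unfold Agree
  infer_instance

theorem least_of_Chk (r : ℕ) (hr : 1 ≤ r) (L : List ℕ) (hnd : L.Nodup) (hA : Agree r L)
    (hC : Chk r L) (hlen : L.length = 2 ^ (r - 1)) : IsLeast (Good r r) (2 ^ (r - 1)) := by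
  refine ⟨pow_mem_Good hr, ?_⟩
  intro k hk
  by_contra hlt
  push Not at hlt
  obtain ⟨H, hH1, hH2⟩ := lower_abs r L.toFinset
    (by
      intro c hc d hd
      obtain ⟨i, hi, heq⟩ := hA c (List.mem_toFinset.mp hc) d (List.mem_toFinset.mp hd)
      exact ⟨⟨i, hi⟩, by simp only [ev, heq]⟩)
    (hchk_of_Chk r L hC) k
    (by rw [List.toFinset_card_of_nodup hnd, hlen]; exact hlt)
  exact hH2 (hk.2 H hH1)

theorem kc_eq_of_Chk (r : ℕ) (hr : 1 ≤ r) (L : List ℕ) (hnd : L.Nodup) (hA : Agree r L)
    (hC : Chk r L) (hlen : L.length = 2 ^ (r - 1)) : kc r r = 2 ^ (r - 1) :=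
  (least_of_Chk r hr L hnd hA hC hlen).csInf_eq

theorem least_two : IsLeast (Good 2 2) 2 :=
  least_of_Chk 2 (by norm_num) [0, 1] (by decide) (by decide) (by decide +kernel) (by decide)

theorem least_three : IsLeast (Good 3 3) 4 :=
  least_of_Chk 3 (by norm_num) [0, 3, 5, 6] (by decide) (by decide +kernel) (by decide +kernel)
    (by decide)

theorem least_four : IsLeast (Good 4 4) 8 :=
  least_of_Chk 4 (by norm_num) [1, 2, 4, 8, 9, 10, 12, 15] (by decide) (by decide +kernel)
    (by decide +kernel) (by decide)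

theorem least_five : IsLeast (Good 5 5) 16 :=
  least_of_Chk 5 (by norm_num) [1, 2, 3, 4, 5, 6, 8, 9, 10, 12, 16, 17, 18, 20, 24, 31]
    (by decide) (by decide +kernel) (by decide +kernel) (by decide)

end Pool.Agent.H515R3.KC
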