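import Pool.Agent.H515R3.KC

set_option autoImplicit false

namespace Pool.Agent.H515R3.KC

/-- The edge with labels the indicator of `A`. -/
def ed {r : ℕ} (A : Finset (Fin r)) : Edge r := fun i => if i ∈ A then 1 else 0

lemma miss_aux (z o a : Prop) [Decidable z] [Decidable o] [Decidable a] (w β : ℕ)
    (hβ : β ≤ 1) (hi : ¬ z ∨ ¬ o)
    (hne : (if a then (1 : ℕ) else 0) ≠ (if z then (if o then w else 1)
      else if o then 0 else β)) :
    if z then ¬ a else if o then a else if β = 1 then ¬ a else a := by
  by_cases h0 : z <;> by_cases h1 : o <;> by_cases h2 : a <;> interval_cases β <;> simp_all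

theorem lower_set (r m : ℕ) (F : Finset (Finset (Fin r)))
    (hF : ∀ A ∈ F, A.card = m ∨ A.card = m + 1)
    (hI : ∀ A ∈ F, ∀ B ∈ F, Meets (ed A) (ed B))
    (k : ℕ) (hk : k < F.card) :
    ∃ H : Finset (Edge r), HasEdgeCovers H k ∧ ¬ TauLE H r := by
  classical
  let H : Finset (Edge r) := (Fintype.piFinset (fun _ : Fin r => Finset.range (r + 3))).filter
    (fun e => ∀ c ∈ F, ∀ d ∈ F, ¬ Meets (ed c) e → ¬ Meets (ed d) e → c = d)
  have hmemH : ∀ e : Edge r, e ∈ H ↔ (∀ i, e i < r + 3) ∧
      ∀ c ∈ F, ∀ d ∈ F, ¬ Meets (ed c) e → ¬ Meets (ed d) e → c = d := by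
    intro e
    simp only [H, Finset.mem_filter, Fintype.mem_piFinset, Finset.mem_range]
  have key : ∀ S : Finset (Edge r), S ⊆ H → S.card ≤ k → ∃ c ∈ F, ∀ e ∈ S, Meets (ed c) e := by
    intro S hS hSk
    by_contra hcon
    push Not at hcon
    choose! φ hφ1 hφ2 using hcon
    obtain ⟨c, hc, d, hd, hcd, heq⟩ := Finset.exists_ne_map_eq_of_card_lt_of_maps_to
      (lt_of_le_of_lt hSk hk) (f := φ) hφ1
    apply hcd
    refine ((hmemH (φ c)).1 (hS (hφ1 c hc))).2 c hc d hd (hφ2 c hc) ?_
    rw [heq]
    exact hφ2 d hd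
  have hevH : ∀ c ∈ F, ed c ∈ H := by
    intro c hc
    rw [hmemH]
    refine ⟨?_, ?_⟩
    · intro i
      unfold ed
      split_ifs <;> omega
    · intro a ha b hb hna _
      exact absurd (hI a ha c hc) hna
  refine ⟨H, ⟨fun S => if h : S ⊆ H ∧ S.card ≤ k then ed (Classical.choose (key S h.1 h.2))
    else fun _ => 0, ?_, ?_⟩, ?_⟩
  · intro S hS hSk
    have hs := Classical.choose_spec (key S hS hSk)
    simp only [hS, hSk, and_self, dite_true]
    exact ⟨hevH _ hs.1, hs.2⟩
  · intro S S' hS hSk hS' hSk'
    have hs := Classical.choose_spec (key S hS hSk)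
    have hs' := Classical.choose_spec (key S' hS' hSk')
    simp only [hS, hSk, hS', hSk', and_self, dite_true]
    exact hI _ hs.1 _ hs'.1
  · rintro ⟨C, hC, hcov⟩
    -- a fresh label
    obtain ⟨w, hw, hwC⟩ : ∃ w ∈ Finset.Ico 2 (r + 3), w ∉ C.image Prod.snd := by
      apply Finset.exists_mem_notMem_of_card_lt_card
      rw [Nat.card_Ico]
      have := Finset.card_image_le (s := C) (f := Prod.snd)
      omega
    rw [Finset.mem_Ico] at hw
    let Z : Finset (Fin r) := Finset.univ.filter (fun i => (i, 0) ∈ C)
    let O : Finset (Fin r) := Finset.univ.filter (fun i => (i, 1) ∈ C)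
    have hZ : ∀ i, i ∈ Z ↔ (i, 0) ∈ C := fun i => by simp [Z]
    have hO : ∀ i, i ∈ O ↔ (i, 1) ∈ C := fun i => by simp [O]
    have hZO : Z.card + O.card ≤ r := by
      refine le_trans ?_ hC
      have hA : (Z.image (fun i => ((i, 0) : Fin r × ℕ))).card = Z.card :=
        Finset.card_image_of_injective _ (fun a b hab => (Prod.mk.inj hab).1)
      have hB : (O.image (fun i => ((i, 1) : Fin r × ℕ))).card = O.card :=
        Finset.card_image_of_injective _ (fun a b hab => (Prod.mk.inj hab).1)
      rw [← hA, ← hB, ← Finset.card_union_of_disjoint]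
      · apply Finset.card_le_card
        intro x hx
        rw [Finset.mem_union, Finset.mem_image, Finset.mem_image] at hx
        rcases hx with ⟨i, hi, rfl⟩ | ⟨i, hi, rfl⟩
        · exact (hZ i).1 hi
        · exact (hO i).1 hi
      · rw [Finset.disjoint_left]
        intro x hx hx'
        rw [Finset.mem_image] at hx hx'
        obtain ⟨i, _, rfl⟩ := hx
        obtain ⟨j, _, hj⟩ := hx'
        exact absurd (Prod.mk.inj hj).2 (by norm_num)
    -- the set `Zᶜ` has at least `O.card` elements
    have hZc : O.card ≤ (Zᶜ).card := by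
      rw [Finset.card_compl, Fintype.card_fin]
      omega
    -- the test edge: label `w` on `Z ∩ O`, label `1` on `Z \ O`, label `0` on `O \ Z`,
    -- label `β` elsewhere
    have main : ∀ β : ℕ, β ≤ 1 →
        (∀ A ∈ F, ∀ B ∈ F, (∀ i, i ∉ Z ∨ i ∉ O → (if i ∈ Z then i ∉ A else if i ∈ O then i ∈ A
            else if β = 1 then i ∉ A else i ∈ A)) →
          (∀ i, i ∉ Z ∨ i ∉ O → (if i ∈ Z then i ∉ B else if i ∈ O then i ∈ B
            else if β = 1 then i ∉ B else i ∈ B)) → A = B) → False := by
      intro β hβ hAB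
      let e : Edge r := fun i => if i ∈ Z then (if i ∈ O then w else 1)
        else if i ∈ O then 0 else β
      have heC : ∀ i, (i, e i) ∉ C := by
        intro i hi
        simp only [e] at hi
        by_cases h0 : i ∈ Z <;> by_cases h1 : i ∈ O
        · simp only [h0, h1, if_true] at hi
          exact hwC (Finset.mem_image.mpr ⟨_, hi, rfl⟩)
        · simp only [h0, h1, if_true, if_false] at hi
          exact h1 ((hO i).2 hi)
        · simp only [h0, h1, if_true, if_false] at hi
          exact h0 ((hZ i).2 hi)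
        · simp only [h0, h1, if_false] at hi
          interval_cases β
          · exact h0 ((hZ i).2 hi)
          · exact h1 ((hO i).2 hi)
      have hmiss : ∀ A : Finset (Fin r), ¬ Meets (ed A) e →
          ∀ i, i ∉ Z ∨ i ∉ O → (if i ∈ Z then i ∉ A else if i ∈ O then i ∈ A
            else if β = 1 then i ∉ A else i ∈ A) := by
        intro A hA i hi
        have hne : ed A i ≠ e i := fun heq => hA ⟨i, heq⟩
        exact miss_aux (i ∈ Z) (i ∈ O) (i ∈ A) w β hβ hi hne
      have heH : e ∈ H := by
        rw [hmemH]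
        refine ⟨?_, ?_⟩
        · intro i
          simp only [e]
          split_ifs <;> omega
        · intro A hA B hB hnA hnB
          exact hAB A hA B hB (hmiss A hnA) (hmiss B hnB)
      obtain ⟨i, hi⟩ := hcov e heH
      exact heC i hi
    by_cases hcase : O.card ≤ m
    · -- use `β = 1`: the missed sets are contained in `O`
      refine main 1 le_rfl ?_
      intro A hA B hB h1 h2
      have hsub : ∀ D : Finset (Fin r), (∀ i, i ∉ Z ∨ i ∉ O → (if i ∈ Z then i ∉ D else
          if i ∈ O then i ∈ D else if (1 : ℕ) = 1 then i ∉ D else i ∈ D)) → D ⊆ O := by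
        intro D hD i hi
        by_contra hiO
        have := hD i (Or.inr hiO)
        by_cases hz : i ∈ Z
        · rw [if_pos hz] at this
          exact this hi
        · rw [if_neg hz, if_neg hiO, if_pos rfl] at this
          exact this hi
      have hfull : ∀ D ∈ F, (∀ i, i ∉ Z ∨ i ∉ O → (if i ∈ Z then i ∉ D else
          if i ∈ O then i ∈ D else if (1 : ℕ) = 1 then i ∉ D else i ∈ D)) → D = O := by
        intro D hDF hD
        have hs := hsub D hD
        apply Finset.eq_of_subset_of_card_le hs
        rcases hF D hDF with h | h <;> omega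
      rw [hfull A hA h1, hfull B hB h2]
    · -- use `β = 0`: the missed sets contain `Zᶜ`
      refine main 0 (by norm_num) ?_
      intro A hA B hB h1 h2
      have hsub : ∀ D : Finset (Fin r), (∀ i, i ∉ Z ∨ i ∉ O → (if i ∈ Z then i ∉ D else
          if i ∈ O then i ∈ D else if (0 : ℕ) = 1 then i ∉ D else i ∈ D)) → Zᶜ ⊆ D := by
        intro D hD i hi
        rw [Finset.mem_compl] at hi
        have := hD i (Or.inl hi)
        rw [if_neg hi] at this
        by_cases ho : i ∈ O
        · rw [if_pos ho] at this
          exact this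
        · rw [if_neg ho, if_neg (by norm_num)] at this
          exact this
      have hfull : ∀ D ∈ F, (∀ i, i ∉ Z ∨ i ∉ O → (if i ∈ Z then i ∉ D else
          if i ∈ O then i ∈ D else if (0 : ℕ) = 1 then i ∉ D else i ∈ D)) → Zᶜ = D := by
        intro D hDF hD
        have hs := hsub D hD
        apply Finset.eq_of_subset_of_card_le hs
        rcases hF D hDF with h | h <;> omega
      rw [← hfull A hA h1, ← hfull B hB h2]

theorem le_kc_of {r m : ℕ} (hr : 1 ≤ r) (F : Finset (Finset (Fin r)))
    (hF : ∀ A ∈ F, A.card = m ∨ A.card = m + 1)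
    (hI : ∀ A ∈ F, ∀ B ∈ F, Meets (ed A) (ed B)) : F.card ≤ kc r r := by
  refine le_csInf ⟨_, pow_mem_Good hr⟩ ?_
  intro k hk
  by_contra hlt
  push Not at hlt
  obtain ⟨H, hH1, hH2⟩ := lower_set r m F hF hI k hlt
  exact hH2 (hk.2 H hH1)

lemma meets_of_card {r : ℕ} (A B : Finset (Fin r)) (h : A.card + B.card < r) :
    Meets (ed A) (ed B) := by
  classical
  obtain ⟨i, hi⟩ : ∃ i, i ∉ A ∪ B := by
    by_contra hcon
    push Not at hcon
    have h1 : (Finset.univ : Finset (Fin r)) ⊆ A ∪ B := fun i _ => hcon i
    have h2 := Finset.card_le_card h1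
    have h3 := Finset.card_union_le A B
    rw [Finset.card_univ, Fintype.card_fin] at h2
    omega
  rw [Finset.mem_union, not_or] at hi
  exact ⟨i, by simp [ed, hi.1, hi.2]⟩

/-- Odd `r = 2q+1`. -/
theorem odd_lower (q : ℕ) (hq : 1 ≤ q) :
    (2 * q + 2).choose q ≤ kc (2 * q + 1) (2 * q + 1) := by
  classical
  let F : Finset (Finset (Fin (2 * q + 1))) :=
    Finset.powersetCard (q - 1) Finset.univ ∪ Finset.powersetCard q Finset.univ
  have hmem : ∀ A, A ∈ F ↔ A.card = q - 1 ∨ A.card = q := by
    intro A
    simp only [F, Finset.mem_union, Finset.mem_powersetCard, Finset.subset_univ, true_and]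
  have hcard : F.card = (2 * q + 2).choose q := by
    rw [Finset.card_union_of_disjoint, Finset.card_powersetCard, Finset.card_powersetCard,
      Finset.card_univ, Fintype.card_fin]
    · obtain ⟨p, rfl⟩ : ∃ p, q = p + 1 := ⟨q - 1, by omega⟩
      rw [Nat.choose_succ_succ (2 * (p + 1) + 1) p]
      simp
    · rw [Finset.disjoint_left]
      intro A hA hA'
      rw [Finset.mem_powersetCard] at hA hA'
      omega
  rw [← hcard]
  refine le_kc_of (m := q - 1) (by omega) F ?_ ?_
  · intro A hA
    rcases (hmem A).1 hA with h | h <;> omega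
  · intro A hA B hB
    apply meets_of_card
    rcases (hmem A).1 hA with h | h <;> rcases (hmem B).1 hB with h' | h' <;> omega

/-- Even `r = 2q`. -/
theorem even_lower (q : ℕ) (hq : 1 ≤ q) :
    (2 * q).choose (q - 1) + (2 * q - 1).choose (q - 1) ≤ kc (2 * q) (2 * q) := by
  classical
  obtain ⟨p, rfl⟩ : ∃ p, q = p + 1 := ⟨q - 1, by omega⟩
  have h0 : 0 < 2 * (p + 1) := by omega
  let z : Fin (2 * (p + 1)) := ⟨0, h0⟩
  let G : Finset (Finset (Fin (2 * (p + 1)))) :=
    (Finset.powersetCard p (Finset.univ.erase z)).image (fun A => insert z A)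
  let F : Finset (Finset (Fin (2 * (p + 1)))) := Finset.powersetCard p Finset.univ ∪ G
  have hG : ∀ A ∈ G, A.card = p + 1 ∧ z ∈ A := by
    intro A hA
    obtain ⟨B, hB, rfl⟩ := Finset.mem_image.mp hA
    rw [Finset.mem_powersetCard] at hB
    have hz : z ∉ B := fun h => by
      have := hB.1 h
      simp at this
    exact ⟨by rw [Finset.card_insert_of_notMem hz, hB.2], Finset.mem_insert_self _ _⟩
  have hGcard : G.card = (2 * (p + 1) - 1).choose p := by
    rw [Finset.card_image_of_injOn, Finset.card_powersetCard,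
      Finset.card_erase_of_mem (Finset.mem_univ _), Finset.card_univ, Fintype.card_fin]
    intro A hA B hB hAB
    rw [Finset.mem_coe, Finset.mem_powersetCard] at hA hB
    have hzA : z ∉ A := fun h => by
      have := hA.1 h
      simp at this
    have hzB : z ∉ B := fun h => by
      have := hB.1 h
      simp at this
    have := congrArg (fun S => S.erase z) hAB
    simpa [Finset.erase_insert hzA, Finset.erase_insert hzB] using this
  have hcard : F.card = (2 * (p + 1)).choose p + (2 * (p + 1) - 1).choose p := by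
    rw [Finset.card_union_of_disjoint, Finset.card_powersetCard, hGcard,
      Finset.card_univ, Fintype.card_fin]
    rw [Finset.disjoint_left]
    intro A hA hA'
    rw [Finset.mem_powersetCard] at hA
    have := (hG A hA').1
    omega
  have hmem : ∀ A ∈ F, A.card = p ∨ (A.card = p + 1 ∧ z ∈ A) := by
    intro A hA
    rcases Finset.mem_union.mp hA with h | h
    · exact Or.inl (Finset.mem_powersetCard.mp h).2
    · exact Or.inr (hG A h)
  have hfin := le_kc_of (r := 2 * (p + 1)) (m := p) (by omega) F
    (by
      intro A hA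
      rcases hmem A hA with h | h
      · exact Or.inl h
      · exact Or.inr h.1)
    (by
      intro A hA B hB
      rcases hmem A hA with h | h <;> rcases hmem B hB with h' | h'
      · apply meets_of_card; omega
      · apply meets_of_card; omega
      · apply meets_of_card; omega
      · exact ⟨z, by simp [ed, h.2, h'.2]⟩)
  rw [hcard] at hfin
  simpa using hfin

end Pool.Agent.H515R3.KC
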