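import Mathlib

/-!
# k-page migration and the k-server problem: definitions and basic lemmas
-/

set_option autoImplicit false

open scoped ENNReal NNReal

namespace Pool.Agent.H515R3.PM

/-- A randomized online algorithm (with arbitrary internal memory) that controls `k` points
(pages or servers) of `M`: in the state `s`, on the request `r`, the next state is drawn at random
from the distribution `step s r`; `pos s` is the configuration in the state `s`. -/
structure Alg (k : ℕ) (M : Type) where
  /-- the memory states -/
  State : Type
  /-- the initial state -/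
  start : State
  /-- distribution of the next state -/
  step : State → M → PMF State
  /-- the configuration -/
  pos : State → Fin k → M

variable {k : ℕ} {M : Type} [MetricSpace M]

/-- the service cost `min_i d(x_i, r)` -/
noncomputable def serve (x : Fin k → M) (r : M) : ℝ≥0∞ := ⨅ i, edist (x i) r

/-- the distance `∑_i d(x_i, y_i)` moved -/
noncomputable def move (x y : Fin k → M) : ℝ≥0∞ := ∑ i, edist (x i) (y i)

/-- expected cost of the algorithm `A` for `k`-page migration with page size `D` on the
request sequence, from a given state: a request `r` costs `serve (pos s) r` and then, if `s'` is the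
random next state, `D * move (pos s) (pos s')` -/
noncomputable def pmCost (A : Alg k M) (D : ℝ≥0) : List M → A.State → ℝ≥0∞
  | [], _ => 0
  | r :: σ, s => serve (A.pos s) r +
      ∑' s', A.step s r s' * (D * move (A.pos s) (A.pos s') + pmCost A D σ s')

/-- least cost of an offline solution for `k`-page migration from the configuration `x` -/
noncomputable def pmOpt (D : ℝ≥0) : List M → (Fin k → M) → ℝ≥0∞
  | [], _ => 0
  | r :: σ, x => serve x r + ⨅ y : Fin k → M, (D * move x y + pmOpt D σ y)

/-- expected distance moved by the algorithm `A` on a request sequence, from a given state -/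
noncomputable def ksCost (A : Alg k M) : List M → A.State → ℝ≥0∞
  | [], _ => 0
  | r :: σ, s => ∑' s', A.step s r s' * (move (A.pos s) (A.pos s') + ksCost A σ s')

/-- least cost of an offline solution for the `k`-server problem from the configuration `x`: after
every request `r` the configuration must contain `r` -/
noncomputable def ksOpt : List M → (Fin k → M) → ℝ≥0∞
  | [], _ => 0
  | r :: σ, x => ⨅ y : Fin k → M, ⨅ _ : ∃ i, y i = r, (move x y + ksOpt σ y)

/-- `A` is an algorithm for the `k`-server problem: after every request `r` it has a server at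
`r` -/
def Serves (A : Alg k M) : Prop := ∀ s r s', s' ∈ (A.step s r).support → ∃ i, A.pos s' i = r

/-- on every metric space, for every page size `D ≥ 1` and every initial configuration, some
randomized online algorithm for `k`-page migration is `c`-competitive against oblivious
adversaries -/
def PMComp (k : ℕ) (c : ℝ≥0) : Prop :=
  ∀ (M : Type) [MetricSpace M] (D : ℝ≥0), 1 ≤ D → ∀ x : Fin k → M,
    ∃ A : Alg k M, A.pos A.start = x ∧
      ∃ α : ℝ≥0, ∀ σ : List M, pmCost A D σ A.start ≤ c * pmOpt D σ x + α

/-- on every metric space and for every initial configuration, some randomized online algorithm for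
the `k`-server problem is `c`-competitive against oblivious adversaries -/
def KSComp (k : ℕ) (c : ℝ≥0) : Prop :=
  ∀ (M : Type) [MetricSpace M] (x : Fin k → M),
    ∃ A : Alg k M, A.pos A.start = x ∧ Serves A ∧
      ∃ α : ℝ≥0, ∀ σ : List M, ksCost A σ A.start ≤ c * ksOpt σ x + α

/-- `R(k)`: the optimal randomized competitive ratio of `k`-page migration (`∞` if no finite ratio
can be achieved) -/
noncomputable def R (k : ℕ) : ℝ≥0∞ := ⨅ (c : ℝ≥0) (_ : PMComp k c), (c : ℝ≥0∞)

/-- `S(k)`: the optimal randomized competitive ratio of the `k`-server problem -/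
noncomputable def S (k : ℕ) : ℝ≥0∞ := ⨅ (c : ℝ≥0) (_ : KSComp k c), (c : ℝ≥0∞)

/-! ### expectations -/

/-- expectation with respect to a `PMF` -/
noncomputable def E {α : Type} (p : PMF α) (f : α → ℝ≥0∞) : ℝ≥0∞ := ∑' a, p a * f a

section E
variable {α β : Type}

lemma E_mono (p : PMF α) {f g : α → ℝ≥0∞} (h : ∀ a ∈ p.support, f a ≤ g a) : E p f ≤ E p g := by
  unfold E
  refine ENNReal.tsum_le_tsum fun a => ?_
  by_cases ha : p a = 0
  · simp [ha]
  · exact mul_le_mul_right (h a ha) _

lemma E_add (p : PMF α) (f g : α → ℝ≥0∞) : E p (fun a => f a + g a) = E p f + E p g := by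
  unfold E
  rw [← ENNReal.tsum_add]
  simp only [mul_add]

lemma E_mul (p : PMF α) (c : ℝ≥0∞) (f : α → ℝ≥0∞) : E p (fun a => c * f a) = c * E p f := by
  unfold E
  rw [← ENNReal.tsum_mul_left]
  refine tsum_congr fun a => ?_
  ring

lemma E_const (p : PMF α) (c : ℝ≥0∞) : E p (fun _ => c) = c := by
  unfold E
  rw [ENNReal.tsum_mul_right, PMF.tsum_coe, one_mul]

lemma E_bind (p : PMF α) (q : α → PMF β) (f : β → ℝ≥0∞) :
    E (p.bind q) f = E p (fun a => E (q a) f) := by
  unfold E
  simp only [PMF.bind_apply, ← ENNReal.tsum_mul_right, ← ENNReal.tsum_mul_left]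
  rw [ENNReal.tsum_comm]
  refine tsum_congr fun a => tsum_congr fun b => ?_
  ring

lemma E_pure (a : α) (f : α → ℝ≥0∞) : E (PMF.pure a) f = f a := by
  unfold E
  rw [tsum_eq_single a]
  · simp
  · intro b hb
    simp [PMF.pure_apply, hb]

lemma E_map (p : PMF α) (g : α → β) (f : β → ℝ≥0∞) : E (p.map g) f = E p (fun a => f (g a)) := by
  rw [← PMF.bind_pure_comp, E_bind]
  simp only [Function.comp, E_pure]

end E

/-! ### distances -/

lemma move_self (x : Fin k → M) : move x x = 0 := by simp [move]

lemma move_comm (x y : Fin k → M) : move x y = move y x := by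
  simp [move, edist_comm]

lemma move_triangle (x y z : Fin k → M) : move x z ≤ move x y + move y z := by
  unfold move
  rw [← Finset.sum_add_distrib]
  exact Finset.sum_le_sum fun i _ => edist_triangle _ _ _

lemma serve_le_move {x y : Fin k → M} {r : M} (h : ∃ i, y i = r) : serve x r ≤ move x y := by
  obtain ⟨i, rfl⟩ := h
  refine (iInf_le _ i).trans ?_
  exact Finset.single_le_sum (f := fun j => edist (x j) (y j)) (fun _ _ => zero_le)
    (Finset.mem_univ i)

/-- move a nearest point of the configuration to `r` -/
lemma exists_upd [NeZero k] (x : Fin k → M) (r : M) :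
    ∃ y : Fin k → M, (∃ i, y i = r) ∧ move x y = serve x r := by
  classical
  obtain ⟨i, -, hi⟩ := Finset.exists_min_image (Finset.univ : Finset (Fin k))
    (fun i => edist (x i) r) ⟨0, Finset.mem_univ _⟩
  refine ⟨Function.update x i r, ⟨i, Function.update_self _ _ _⟩, ?_⟩
  unfold move serve
  rw [Finset.sum_eq_single i]
  · rw [Function.update_self]
    exact le_antisymm (le_iInf fun j => hi j (Finset.mem_univ _)) (iInf_le _ i)
  · intro j _ hj
    rw [Function.update_of_ne hj, edist_self]
  · intro h
    exact absurd (Finset.mem_univ _) h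

lemma pmCost_cons (A : Alg k M) (D : ℝ≥0) (r : M) (σ : List M) (s : A.State) :
    pmCost A D (r :: σ) s = serve (A.pos s) r +
      E (A.step s r) (fun s' => D * move (A.pos s) (A.pos s') + pmCost A D σ s') := rfl

lemma ksCost_cons (A : Alg k M) (r : M) (σ : List M) (s : A.State) :
    ksCost A (r :: σ) s = E (A.step s r) (fun s' => move (A.pos s) (A.pos s') + ksCost A σ s') :=
  rfl

end Pool.Agent.H515R3.PM
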