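import Pool.Agent.H515R3.PMUp

/-!
# Deterministic k-page migration from a deterministic k-server algorithm, guided by a
randomized page migration algorithm
-/

set_option autoImplicit false
set_option linter.unusedSectionVars false

open scoped ENNReal NNReal

namespace Pool.Agent.H515R3.PM

/-- A deterministic online algorithm (with arbitrary internal memory) that controls `k` points
(pages or servers) of `M`: in the state `s`, on the request `r`, the next state is `next s r`;
`pos s` is the configuration in the state `s`. -/
structure DAlg (k : ℕ) (M : Type) where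
  /-- the memory states -/
  State : Type
  /-- the initial state -/
  start : State
  /-- the next state -/
  next : State → M → State
  /-- the configuration -/
  pos : State → Fin k → M

variable {k : ℕ} {M : Type} [MetricSpace M]

/-- cost of the deterministic algorithm `B` for `k`-page migration with page size `D` on the
request sequence, from a given state: a request `r` costs `serve (pos s) r` and then, if `s'` is the
next state, `D * move (pos s) (pos s')` -/
noncomputable def dpmCost (B : DAlg k M) (D : ℝ≥0) : List M → B.State → ℝ≥0∞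
  | [], _ => 0
  | r :: σ, s => serve (B.pos s) r + D * move (B.pos s) (B.pos (B.next s r)) +
      dpmCost B D σ (B.next s r)

/-- distance moved by the deterministic algorithm `A` on a request sequence, from a given state -/
noncomputable def dksCost (A : DAlg k M) : List M → A.State → ℝ≥0∞
  | [], _ => 0
  | r :: σ, s => move (A.pos s) (A.pos (A.next s r)) + dksCost A σ (A.next s r)

/-- `A` is an algorithm for the `k`-server problem: after every request `r` it has a server at
`r` -/
def DServes (A : DAlg k M) : Prop := ∀ s r, ∃ i, A.pos (A.next s r) i = r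

/-- on every metric space, for every page size `D ≥ 1` and every initial configuration, some
deterministic online algorithm for `k`-page migration is `c`-competitive -/
def DPMComp (k : ℕ) (c : ℝ≥0) : Prop :=
  ∀ (M : Type) [MetricSpace M] (D : ℝ≥0), 1 ≤ D → ∀ x : Fin k → M,
    ∃ B : DAlg k M, B.pos B.start = x ∧
      ∃ α : ℝ≥0, ∀ σ : List M, dpmCost B D σ B.start ≤ c * pmOpt D σ x + α

/-- on every metric space and for every initial configuration, some deterministic online algorithm
for the `k`-server problem is `c`-competitive -/
def DKSComp (k : ℕ) (c : ℝ≥0) : Prop :=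
  ∀ (M : Type) [MetricSpace M] (x : Fin k → M),
    ∃ A : DAlg k M, A.pos A.start = x ∧ DServes A ∧
      ∃ α : ℝ≥0, ∀ σ : List M, dksCost A σ A.start ≤ c * ksOpt σ x + α

/-- the optimal deterministic competitive ratio of `k`-page migration (`∞` if no finite ratio
can be achieved) -/
noncomputable def DR (k : ℕ) : ℝ≥0∞ := ⨅ (c : ℝ≥0) (_ : DPMComp k c), (c : ℝ≥0∞)

/-- the optimal deterministic competitive ratio of the `k`-server problem -/
noncomputable def DS (k : ℕ) : ℝ≥0∞ := ⨅ (c : ℝ≥0) (_ : DKSComp k c), (c : ℝ≥0∞)

/-! ### the potential -/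

/-- how much the algorithm `A` in the state `s` can still lose against `c` times the offline cost
from the configuration `y` -/
noncomputable def Phi (A : DAlg k M) (c : ℝ≥0) (s : A.State) (y : Fin k → M) : ℝ≥0∞ :=
  ⨆ τ : List M, (dksCost A τ s - c * ksOpt τ y)

lemma cost_le_Phi (A : DAlg k M) (c : ℝ≥0) (s : A.State) (y : Fin k → M) (τ : List M) :
    dksCost A τ s ≤ Phi A c s y + c * ksOpt τ y :=
  tsub_le_iff_right.1 (le_iSup (fun τ : List M => dksCost A τ s - c * ksOpt τ y) τ)

lemma Phi_lip (A : DAlg k M) (c : ℝ≥0) (s : A.State) (y z : Fin k → M) :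
    Phi A c s z ≤ Phi A c s y + c * move y z := by
  refine iSup_le fun τ => tsub_le_iff_right.2 ?_
  calc dksCost A τ s ≤ Phi A c s y + c * ksOpt τ y := cost_le_Phi A c s y τ
    _ ≤ Phi A c s y + c * (move y z + ksOpt τ z) := by
        gcongr
        exact ksOpt_lip τ z y
    _ = Phi A c s y + c * move y z + c * ksOpt τ z := by ring

lemma Phi_next [NeZero k] (A : DAlg k M) (c : ℝ≥0) (s : A.State) (r : M) (y : Fin k → M) :
    Phi A c (A.next s r) y + move (A.pos s) (A.pos (A.next s r)) ≤
      Phi A c s y + 2 * c * serve y r := by
  set m := move (A.pos s) (A.pos (A.next s r)) with hm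
  have h0 : ∀ τ : List M, m + dksCost A τ (A.next s r) ≤
      Phi A c s y + 2 * c * serve y r + c * ksOpt τ y := by
    intro τ
    calc m + dksCost A τ (A.next s r) = dksCost A (r :: τ) s := rfl
      _ ≤ Phi A c s y + c * ksOpt (r :: τ) y := cost_le_Phi A c s y (r :: τ)
      _ ≤ Phi A c s y + c * (2 * serve y r + ksOpt τ y) := by
          gcongr
          exact ksOpt_cons_le r τ y
      _ = _ := by ring
  have h1 : m ≤ Phi A c s y + 2 * c * serve y r := by
    have h := h0 []
    simpa [dksCost, ksOpt] using h
  unfold Phi
  rw [ENNReal.iSup_add]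
  refine iSup_le fun τ => ?_
  have h2 := h0 τ
  change dksCost A τ (A.next s r) - c * ksOpt τ y + m ≤ Phi A c s y + 2 * c * serve y r
  by_cases hZ : (c : ℝ≥0∞) * ksOpt τ y = ∞
  · rw [hZ, ENNReal.sub_top, zero_add]
    exact h1
  · rcases le_total (dksCost A τ (A.next s r)) (c * ksOpt τ y) with h | h
    · rw [tsub_eq_zero_of_le h, zero_add]
      exact h1
    · refine (ENNReal.add_le_add_iff_right hZ).1 ?_
      calc dksCost A τ (A.next s r) - c * ksOpt τ y + m + c * ksOpt τ y
          = m + (dksCost A τ (A.next s r) - c * ksOpt τ y + c * ksOpt τ y) := by ring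
        _ = m + dksCost A τ (A.next s r) := by rw [tsub_add_cancel_of_le h]
        _ ≤ _ := h2

/-! ### the algorithm -/

open Classical in
/-- The deterministic page migration algorithm. It runs the `k`-server algorithm `A` on a
subsequence of the requests and keeps track of the distribution of the randomized page migration
algorithm `H`; the request `r` is forwarded to `A` if its distance from the current configuration
is more than `3 c` times the expected distance from the configuration of `H`. -/
noncomputable def derand (A : DAlg k M) (H : Alg k M) (c : ℝ≥0) : DAlg k M where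
  State := A.State × PMF H.State
  start := (A.start, PMF.pure H.start)
  next := fun s r =>
    (if 3 * c * E s.2 (fun h => serve (H.pos h) r) < serve (A.pos s.1) r then A.next s.1 r else s.1,
      s.2.bind fun h => H.step h r)
  pos := fun s => A.pos s.1

lemma move_ne_top (x y : Fin k → M) : move x y ≠ ∞ := by
  unfold move
  exact (ENNReal.sum_ne_top.2 fun i _ => edist_ne_top _ _)

lemma step_arith {D : ℝ≥0} (hD : 1 ≤ D) {v m u P P' : ℝ≥0∞} (hm : m ≠ ∞) (hv : v ≤ m) (hu : u < v)
    (h : 3 * (P' + m) ≤ 3 * P + 2 * u) : v + D * m + 3 * D * P' ≤ 3 * D * P + u := by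
  have hD' : (1 : ℝ≥0∞) ≤ D := by exact_mod_cast hD
  obtain ⟨e, he⟩ : ∃ e, m = u + e := ⟨m - u, (add_tsub_cancel_of_le (hu.le.trans hv)).symm⟩
  have hfin : (2 : ℝ≥0∞) * D * m ≠ ∞ :=
    ENNReal.mul_ne_top (ENNReal.mul_ne_top (by norm_num) ENNReal.coe_ne_top) hm
  refine (ENNReal.add_le_add_iff_right hfin).1 ?_
  calc v + D * m + 3 * D * P' + 2 * D * m = v + D * (3 * (P' + m)) := by ring
    _ ≤ m + D * (3 * P + 2 * u) := by gcongr
    _ = u + 3 * D * P + 2 * D * u + e := by rw [he]; ring
    _ ≤ u + 3 * D * P + 2 * D * u + 2 * D * e := by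
        gcongr
        calc e = 1 * 1 * e := by ring
          _ ≤ 2 * D * e := by
              gcongr
              norm_num
    _ = 3 * D * P + u + 2 * D * m := by rw [he]; ring

lemma step_bound [NeZero k] {A : DAlg k M} (hA : DServes A) (H : Alg k M) (c : ℝ≥0) {D : ℝ≥0}
    (hD : 1 ≤ D) (s : A.State) (μ : PMF H.State) (r : M) :
    serve (A.pos s) r +
        D * move (A.pos s) (A.pos ((derand A H c).next (s, μ) r).1) +
        3 * D * E (μ.bind fun h => H.step h r)
          (fun h => Phi A c ((derand A H c).next (s, μ) r).1 (H.pos h)) ≤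
      3 * D * E μ (fun h => Phi A c s (H.pos h)) +
        3 * c * (E μ (fun h => serve (H.pos h) r) +
          D * E μ (fun h => E (H.step h r) fun h' => move (H.pos h) (H.pos h'))) := by
  set a := ((derand A H c).next (s, μ) r).1 with ha
  set S := E μ (fun h => serve (H.pos h) r) with hS
  set Mv := E μ (fun h => E (H.step h r) fun h' => move (H.pos h) (H.pos h')) with hMv
  have h1 : E (μ.bind fun h => H.step h r) (fun h => Phi A c a (H.pos h)) ≤
      E μ (fun h => Phi A c a (H.pos h)) + c * Mv := by
    rw [E_bind, hMv, ← E_mul, ← E_add]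
    refine E_mono _ fun h _ => ?_
    rw [← E_mul]
    calc E (H.step h r) (fun h' => Phi A c a (H.pos h'))
        ≤ E (H.step h r) (fun h' => Phi A c a (H.pos h) + c * move (H.pos h) (H.pos h')) :=
          E_mono _ fun h' _ => Phi_lip A c a _ _
      _ = _ := by rw [E_add, E_const]
  have h2 : serve (A.pos s) r + D * move (A.pos s) (A.pos a) +
      3 * D * E μ (fun h => Phi A c a (H.pos h)) ≤
      3 * D * E μ (fun h => Phi A c s (H.pos h)) + 3 * c * S := by
    by_cases hlt : 3 * c * S < serve (A.pos s) r
    · have ha' : a = A.next s r := by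
        rw [ha]
        change (if _ then A.next s r else s) = _
        rw [if_pos hlt]
      rw [ha']
      refine step_arith hD (move_ne_top _ _) (serve_le_move (hA s r)) hlt ?_
      have h3 : E μ (fun h => Phi A c (A.next s r) (H.pos h)) +
          move (A.pos s) (A.pos (A.next s r)) ≤
          E μ (fun h => Phi A c s (H.pos h)) + 2 * c * S := by
        rw [hS, ← E_mul, ← E_add]
        calc E μ (fun h => Phi A c (A.next s r) (H.pos h)) +
              move (A.pos s) (A.pos (A.next s r))
            = E μ (fun h => Phi A c (A.next s r) (H.pos h) +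
              move (A.pos s) (A.pos (A.next s r))) := by rw [E_add, E_const]
          _ ≤ _ := E_mono _ fun h _ => Phi_next A c s r (H.pos h)
      calc 3 * (E μ (fun h => Phi A c (A.next s r) (H.pos h)) +
            move (A.pos s) (A.pos (A.next s r)))
          ≤ 3 * (E μ (fun h => Phi A c s (H.pos h)) + 2 * c * S) := by gcongr
        _ = _ := by ring
    · have ha' : a = s := by
        rw [ha]
        change (if _ then A.next s r else s) = _
        rw [if_neg hlt]
      rw [ha', move_self, mul_zero, add_zero, add_comm]
      gcongr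
      exact not_lt.1 hlt
  calc _ ≤ serve (A.pos s) r + D * move (A.pos s) (A.pos a) +
        3 * D * (E μ (fun h => Phi A c a (H.pos h)) + c * Mv) := by gcongr
    _ = serve (A.pos s) r + D * move (A.pos s) (A.pos a) +
        3 * D * E μ (fun h => Phi A c a (H.pos h)) + 3 * c * (D * Mv) := by ring
    _ ≤ 3 * D * E μ (fun h => Phi A c s (H.pos h)) + 3 * c * S + 3 * c * (D * Mv) := by gcongr
    _ = _ := by ring

lemma derand_cost [NeZero k] {A : DAlg k M} (hA : DServes A) (H : Alg k M) (c : ℝ≥0) {D : ℝ≥0}
    (hD : 1 ≤ D) (σ : List M) (s : A.State) (μ : PMF H.State) :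
    dpmCost (derand A H c) D σ (s, μ) ≤
      3 * D * E μ (fun h => Phi A c s (H.pos h)) + 3 * c * E μ (fun h => pmCost H D σ h) := by
  induction σ generalizing s μ with
  | nil => exact zero_le
  | cons r σ ih =>
    have hE : E μ (fun h => pmCost H D (r :: σ) h) =
        E μ (fun h => serve (H.pos h) r) +
          D * E μ (fun h => E (H.step h r) fun h' => move (H.pos h) (H.pos h')) +
          E (μ.bind fun h => H.step h r) (fun h => pmCost H D σ h) := by
      rw [E_bind, ← E_mul, ← E_add, ← E_add]
      congr 1
      funext h
      rw [pmCost_cons, E_add, E_mul, add_assoc]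
    have hstep := step_bound hA H c hD s μ r
    have hih := ih ((derand A H c).next (s, μ) r).1 (μ.bind fun h => H.step h r)
    rw [hE]
    calc dpmCost (derand A H c) D (r :: σ) (s, μ)
        = serve (A.pos s) r + D * move (A.pos s) (A.pos ((derand A H c).next (s, μ) r).1) +
          dpmCost (derand A H c) D σ
            (((derand A H c).next (s, μ) r).1, μ.bind fun h => H.step h r) := rfl
      _ ≤ serve (A.pos s) r + D * move (A.pos s) (A.pos ((derand A H c).next (s, μ) r).1) +
          (3 * D * E (μ.bind fun h => H.step h r)
            (fun h => Phi A c ((derand A H c).next (s, μ) r).1 (H.pos h)) +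
            3 * c * E (μ.bind fun h => H.step h r) (fun h => pmCost H D σ h)) := by gcongr
      _ = (serve (A.pos s) r + D * move (A.pos s) (A.pos ((derand A H c).next (s, μ) r).1) +
          3 * D * E (μ.bind fun h => H.step h r)
            (fun h => Phi A c ((derand A H c).next (s, μ) r).1 (H.pos h))) +
            3 * c * E (μ.bind fun h => H.step h r) (fun h => pmCost H D σ h) := by ring
      _ ≤ (3 * D * E μ (fun h => Phi A c s (H.pos h)) +
          3 * c * (E μ (fun h => serve (H.pos h) r) +
            D * E μ (fun h => E (H.step h r) fun h' => move (H.pos h) (H.pos h')))) +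
            3 * c * E (μ.bind fun h => H.step h r) (fun h => pmCost H D σ h) := by gcongr
      _ = _ := by ring

theorem dpmComp_of [NeZero k] {c β : ℝ≥0} (h1 : DKSComp k c) (h2 : PMComp k β) :
    DPMComp k (3 * c * β) := by
  intro M _ D hD x
  obtain ⟨A, hx, hA, α, hα⟩ := h1 M x
  obtain ⟨H, hy, α', hα'⟩ := h2 M D hD x
  refine ⟨derand A H c, hx, 3 * D * α + 3 * c * α', fun σ => ?_⟩
  have hΦ : Phi A c A.start x ≤ α := by
    refine iSup_le fun τ => tsub_le_iff_right.2 ?_
    rw [add_comm]
    exact hα τ
  calc dpmCost (derand A H c) D σ (A.start, PMF.pure H.start)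
      ≤ 3 * D * E (PMF.pure H.start) (fun h => Phi A c A.start (H.pos h)) +
        3 * c * E (PMF.pure H.start) (fun h => pmCost H D σ h) := derand_cost hA H c hD σ _ _
    _ = 3 * D * Phi A c A.start x + 3 * c * pmCost H D σ H.start := by
        rw [E_pure, E_pure, hy]
    _ ≤ 3 * D * α + 3 * c * (β * pmOpt D σ x + α') := by
        gcongr
        exact hα' σ
    _ = ((3 * c * β : ℝ≥0) : ℝ≥0∞) * pmOpt D σ x + ((3 * D * α + 3 * c * α' : ℝ≥0) : ℝ≥0∞) := by
        push_cast
        ring

end Pool.Agent.H515R3.PM
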