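import Pool.Agent.H515R3.PMUp

/-!
# `S(k) ≤ R(k)`: a page migration algorithm for large `D` gives a k-server algorithm

Every request is repeated `n = 2D` times; the k-server algorithm looks at the configuration of the
page migration algorithm at a random time `t` of every block.
-/

set_option autoImplicit false
set_option linter.unusedSectionVars false

open scoped ENNReal NNReal

namespace Pool.Agent.H515R3.PM

variable {k : ℕ} {M : Type} [MetricSpace M]

/-- distribution of the state after a list of requests -/
noncomputable def runs (A : Alg k M) : List M → A.State → PMF A.State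
  | [], s => PMF.pure s
  | r :: τ, s => (A.step s r).bind (runs A τ)

/-- expected total service cost -/
noncomputable def serveSum (A : Alg k M) : List M → A.State → ℝ≥0∞
  | [], _ => 0
  | r :: σ, s => serve (A.pos s) r + E (A.step s r) (serveSum A σ)

lemma E_runs_append (A : Alg k M) (τ ρ : List M) (s : A.State) (f : A.State → ℝ≥0∞) :
    E (runs A (τ ++ ρ) s) f = E (runs A τ s) (fun s' => E (runs A ρ s') f) := by
  induction τ generalizing s with
  | nil => simp only [List.nil_append, runs, E_pure]
  | cons r τ ih =>
    simp only [List.cons_append, runs, E_bind, ih]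

lemma pmCost_eq (A : Alg k M) (D : ℝ≥0) (σ : List M) (s : A.State) :
    pmCost A D σ s = serveSum A σ s + D * ksCost A σ s := by
  induction σ generalizing s with
  | nil => simp [pmCost, serveSum, ksCost]
  | cons r σ ih =>
    rw [pmCost_cons, ksCost_cons, serveSum]
    simp only [ih]
    rw [E_add, E_add, E_add, E_mul, E_mul]
    ring

lemma ksCost_append (A : Alg k M) (τ ρ : List M) (s : A.State) :
    ksCost A (τ ++ ρ) s = ksCost A τ s + E (runs A τ s) (ksCost A ρ) := by
  induction τ generalizing s with
  | nil => simp [ksCost, runs, E_pure]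
  | cons r τ ih =>
    rw [List.cons_append, ksCost_cons, ksCost_cons, runs, E_bind]
    simp only [ih]
    rw [← E_add]
    simp only [add_assoc]

lemma ksCost_le_of_prefix (A : Alg k M) {τ ρ : List M} (h : τ <+: ρ) (s : A.State) :
    ksCost A τ s ≤ ksCost A ρ s := by
  obtain ⟨η, rfl⟩ := h
  rw [ksCost_append]
  exact le_self_add

lemma E_move_runs (A : Alg k M) (τ : List M) (s : A.State) :
    E (runs A τ s) (fun s' => move (A.pos s) (A.pos s')) ≤ ksCost A τ s := by
  induction τ generalizing s with
  | nil => simp [runs, E_pure, move_self, ksCost]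
  | cons r τ ih =>
    rw [runs, E_bind, ksCost_cons]
    refine E_mono _ fun s1 _ => ?_
    calc E (runs A τ s1) (fun s' => move (A.pos s) (A.pos s'))
        ≤ E (runs A τ s1) (fun s' => move (A.pos s) (A.pos s1) + move (A.pos s1) (A.pos s')) :=
          E_mono _ fun s' _ => move_triangle _ _ _
      _ = move (A.pos s) (A.pos s1) + E (runs A τ s1) (fun s' => move (A.pos s1) (A.pos s')) := by
          rw [E_add, E_const]
      _ ≤ _ := by
          gcongr
          exact ih s1

/-- a configuration obtained by moving a nearest point to `r` -/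
noncomputable def near [NeZero k] (x : Fin k → M) (r : M) : Fin k → M := (exists_upd x r).choose

lemma near_mem [NeZero k] (x : Fin k → M) (r : M) : ∃ i, near x r i = r :=
  (exists_upd x r).choose_spec.1

lemma move_near [NeZero k] (x : Fin k → M) (r : M) : move x (near x r) = serve x r :=
  (exists_upd x r).choose_spec.2

/-- the blocks: every request is repeated `n` times -/
def blocks (n : ℕ) : List M → List M
  | [] => []
  | r :: σ => List.replicate n r ++ blocks n σ

/-- the requests from time `t` of the block of `r0` on -/
def seqs (n t : ℕ) : List M → M → List M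
  | [], _ => []
  | r :: σ, r0 => (List.replicate (n - t) r0 ++ List.replicate t r) ++ seqs n t σ r

lemma seqs_prefix {n t : ℕ} (ht : t ≤ n) (σ : List M) (r0 : M) :
    seqs n t σ r0 <+: List.replicate (n - t) r0 ++ blocks n σ := by
  induction σ generalizing r0 with
  | nil => exact List.nil_prefix
  | cons r σ ih =>
    have h : List.replicate n r = List.replicate t r ++ List.replicate (n - t) r := by
      rw [← List.replicate_add, Nat.add_sub_cancel' ht]
    rw [seqs, blocks, h, List.append_assoc, List.append_assoc]
    rw [List.prefix_append_right_inj, List.prefix_append_right_inj]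
    exact ih r

/-- expected service cost at the time `t` of every block -/
noncomputable def fs (A : Alg k M) (n t : ℕ) : List M → A.State → ℝ≥0∞
  | [], _ => 0
  | r :: σ, s => E (runs A (List.replicate t r) s) (fun s' => serve (A.pos s') r) +
      E (runs A (List.replicate n r) s) (fs A n t σ)

lemma E_sum {α ι : Type} (p : PMF α) (I : Finset ι) (f : ι → α → ℝ≥0∞) :
    E p (fun a => ∑ i ∈ I, f i a) = ∑ i ∈ I, E p (f i) := by
  classical
  induction I using Finset.induction_on with
  | empty => simp [E]
  | insert i I hi ih =>
    simp only [Finset.sum_insert hi]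
    rw [E_add, ih]

lemma serveSum_replicate (A : Alg k M) (m : ℕ) (r : M) (ρ : List M) (s : A.State) :
    serveSum A (List.replicate m r ++ ρ) s =
      (∑ t ∈ Finset.range m, E (runs A (List.replicate t r) s) (fun s' => serve (A.pos s') r)) +
      E (runs A (List.replicate m r) s) (serveSum A ρ) := by
  induction m generalizing s with
  | zero => simp [runs, E_pure]
  | succ m ih =>
    rw [List.replicate_succ, List.cons_append, serveSum]
    rw [show serveSum A (List.replicate m r ++ ρ) = _ from funext ih]
    rw [E_add, E_sum, Finset.sum_range_succ', runs, E_bind]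
    simp only [List.replicate_succ, List.replicate_zero, runs, E_bind, E_pure]
    ring

lemma sum_fs (A : Alg k M) (n : ℕ) (σ : List M) (s : A.State) :
    ∑ t ∈ Finset.range n, fs A n t σ s = serveSum A (blocks n σ) s := by
  induction σ generalizing s with
  | nil => simp [fs, blocks, serveSum]
  | cons r σ ih =>
    rw [blocks, serveSum_replicate]
    simp only [fs]
    rw [Finset.sum_add_distrib]
    congr 1
    rw [← E_sum]
    congr 1
    funext a
    exact ih a

/-- sampled service costs, starting at time `t` of the block of `r0` -/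
noncomputable def ssum (A : Alg k M) (n t : ℕ) : List M → M → A.State → ℝ≥0∞
  | [], _, _ => 0
  | r :: σ, r0, s => E (runs A (List.replicate (n - t) r0 ++ List.replicate t r) s)
      (fun s' => serve (A.pos s') r + ssum A n t σ r s')

lemma ssum_eq (A : Alg k M) {n t : ℕ} (ht : t ≤ n) (σ : List M) (r0 : M) (s : A.State) :
    ssum A n t σ r0 s = E (runs A (List.replicate (n - t) r0) s) (fs A n t σ) := by
  induction σ generalizing r0 s with
  | nil =>
    rw [ssum]
    exact (E_const _ 0).symm
  | cons r σ ih =>
    rw [ssum, E_runs_append]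
    congr 1
    funext s1
    rw [E_add, fs]
    congr 1
    have h : ∀ s', ssum A n t σ r s' = E (runs A (List.replicate (n - t) r) s') (fs A n t σ) :=
      fun s' => ih r s'
    rw [show ssum A n t σ r = fun s' => E (runs A (List.replicate (n - t) r) s') (fs A n t σ) from
      funext h, ← E_runs_append, ← List.replicate_add, Nat.add_sub_cancel' ht]

/-- the k-server algorithm -/
@[reducible] noncomputable def sampler [NeZero k] (A : Alg k M) (n : ℕ) [NeZero n] : Alg k M where
  State := A.State × Option (Fin n × M)
  start := (A.start, none)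
  step := fun z r => match z with
    | (s, none) => (PMF.uniformOfFintype (Fin n)).bind fun t =>
        (runs A (List.replicate t r) s).map fun s' => (s', some (t, r))
    | (s, some (t, r0)) =>
        (runs A (List.replicate (n - t) r0 ++ List.replicate t r) s).map
          fun s' => (s', some (t, r))
  pos := fun z => match z with
    | (s, none) => A.pos s
    | (s, some (_, r)) => near (A.pos s) r

lemma sampler_serves [NeZero k] (A : Alg k M) (n : ℕ) [NeZero n] : Serves (sampler A n) := by
  rintro ⟨s, _ | ⟨t, r0⟩⟩ r s' hs'
  · simp only [PMF.mem_support_bind_iff, PMF.mem_support_map_iff] at hs'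
    obtain ⟨t, -, s1, -, rfl⟩ := hs'
    exact near_mem _ _
  · simp only [PMF.mem_support_map_iff] at hs'
    obtain ⟨s1, -, rfl⟩ := hs'
    exact near_mem _ _

lemma sampler_some [NeZero k] (A : Alg k M) (n : ℕ) [NeZero n] (σ : List M) (s : A.State)
    (t : Fin n) (r0 : M) :
    ksCost (sampler A n) σ (s, some (t, r0)) ≤
      serve (A.pos s) r0 + ksCost A (seqs n t σ r0) s + 2 * ssum A n t σ r0 s := by
  induction σ generalizing s r0 with
  | nil => exact zero_le
  | cons r σ ih =>
    rw [ksCost_cons]
    change E ((runs A (List.replicate (n - t) r0 ++ List.replicate t r) s).map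
          fun s' => (s', some (t, r))) _ ≤ _
    rw [E_map]
    set P := runs A (List.replicate (n - t) r0 ++ List.replicate t r) s with hP
    change E P (fun s' => move (near (A.pos s) r0) (near (A.pos s') r) +
      ksCost (sampler A n) σ (s', some (t, r))) ≤ _
    calc E P (fun s' => move (near (A.pos s) r0) (near (A.pos s') r) +
          ksCost (sampler A n) σ (s', some (t, r)))
        ≤ E P (fun s' => (serve (A.pos s) r0 + (move (A.pos s) (A.pos s') + serve (A.pos s') r)) +
            (serve (A.pos s') r + ksCost A (seqs n t σ r) s' + 2 * ssum A n t σ r s')) := by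
          refine E_mono _ fun s' _ => ?_
          gcongr
          · calc move (near (A.pos s) r0) (near (A.pos s') r)
                ≤ move (near (A.pos s) r0) (A.pos s) + move (A.pos s) (near (A.pos s') r) :=
                  move_triangle _ _ _
              _ ≤ move (near (A.pos s) r0) (A.pos s) + (move (A.pos s) (A.pos s') +
                    move (A.pos s') (near (A.pos s') r)) := by
                  gcongr
                  exact move_triangle _ _ _
              _ = _ := by rw [move_comm _ (A.pos s), move_near, move_near]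
          · exact ih s' r
      _ = E P (fun s' => serve (A.pos s) r0 + (move (A.pos s) (A.pos s') +
            (ksCost A (seqs n t σ r) s' + 2 * (serve (A.pos s') r + ssum A n t σ r s')))) := by
          congr 1
          funext s'
          ring
      _ = serve (A.pos s) r0 + (E P (fun s' => move (A.pos s) (A.pos s')) +
            (E P (ksCost A (seqs n t σ r)) +
              2 * E P (fun s' => serve (A.pos s') r + ssum A n t σ r s'))) := by
          rw [E_add, E_const, E_add, E_add, E_mul]
      _ ≤ serve (A.pos s) r0 + (ksCost A (List.replicate (n - t) r0 ++ List.replicate t r) s +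
            (E P (ksCost A (seqs n t σ r)) +
              2 * E P (fun s' => serve (A.pos s') r + ssum A n t σ r s'))) := by
          gcongr
          exact E_move_runs A _ s
      _ = _ := by
          rw [seqs, ssum, ksCost_append A (List.replicate (n - t) r0 ++ List.replicate (t : ℕ) r)]
          ring

lemma E_unif (n : ℕ) [NeZero n] (f : ℕ → ℝ≥0∞) :
    E (PMF.uniformOfFintype (Fin n)) (fun t => f t) = (n : ℝ≥0∞)⁻¹ * ∑ t ∈ Finset.range n, f t := by
  unfold E
  rw [tsum_fintype, Finset.mul_sum, ← Fin.sum_univ_eq_sum_range (fun i => (n : ℝ≥0∞)⁻¹ * f i)]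
  refine Finset.sum_congr rfl fun t _ => ?_
  rw [PMF.uniformOfFintype_apply, Fintype.card_fin]

lemma sampler_none [NeZero k] (A : Alg k M) (n : ℕ) [NeZero n] (σ : List M) (s : A.State) :
    ksCost (sampler A n) σ (s, none) ≤
      ksCost A (blocks n σ) s + 2 * ((n : ℝ≥0∞)⁻¹ * serveSum A (blocks n σ) s) := by
  cases σ with
  | nil => exact zero_le
  | cons r σ =>
    rw [ksCost_cons]
    change E ((PMF.uniformOfFintype (Fin n)).bind fun t =>
        (runs A (List.replicate t r) s).map fun s' => (s', some (t, r))) _ ≤ _
    rw [E_bind]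
    have key : ∀ t : Fin n, E ((runs A (List.replicate t r) s).map fun s' => (s', some (t, r)))
        (fun z => move ((sampler A n).pos (s, none)) ((sampler A n).pos z) +
          ksCost (sampler A n) σ z) ≤
        ksCost A (blocks n (r :: σ)) s + 2 * fs A n t (r :: σ) s := by
      intro t
      rw [E_map]
      set P := runs A (List.replicate (t : ℕ) r) s with hP
      change E P (fun s' => move (A.pos s) (near (A.pos s') r) +
        ksCost (sampler A n) σ (s', some (t, r))) ≤ _
      calc E P (fun s' => move (A.pos s) (near (A.pos s') r) +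
            ksCost (sampler A n) σ (s', some (t, r)))
          ≤ E P (fun s' => (move (A.pos s) (A.pos s') + serve (A.pos s') r) +
              (serve (A.pos s') r + ksCost A (seqs n t σ r) s' + 2 * ssum A n t σ r s')) := by
            refine E_mono _ fun s' _ => ?_
            gcongr
            · calc move (A.pos s) (near (A.pos s') r)
                  ≤ move (A.pos s) (A.pos s') + move (A.pos s') (near (A.pos s') r) :=
                    move_triangle _ _ _
                _ = _ := by rw [move_near]
            · exact sampler_some A n σ s' t r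
        _ = E P (fun s' => move (A.pos s) (A.pos s') + (ksCost A (seqs n t σ r) s' +
              2 * (serve (A.pos s') r + ssum A n t σ r s'))) := by
            congr 1
            funext s'
            ring
        _ = E P (fun s' => move (A.pos s) (A.pos s')) + (E P (ksCost A (seqs n t σ r)) +
              2 * (E P (fun s' => serve (A.pos s') r) + E P (ssum A n t σ r))) := by
            rw [E_add, E_add, E_mul, E_add]
        _ ≤ ksCost A (List.replicate t r) s + (E P (ksCost A (seqs n t σ r)) +
              2 * (E P (fun s' => serve (A.pos s') r) + E P (ssum A n t σ r))) := by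
            gcongr
            exact E_move_runs A _ s
        _ = ksCost A (List.replicate t r ++ seqs n t σ r) s + 2 * fs A n t (r :: σ) s := by
            rw [ksCost_append, add_assoc, fs]
            have h : ssum A n t σ r = fun s' => E (runs A (List.replicate (n - t) r) s')
                (fs A n t σ) := funext fun s' => ssum_eq A t.2.le σ r s'
            rw [h, hP, ← E_runs_append, ← List.replicate_add, Nat.add_sub_cancel' t.2.le]
        _ ≤ _ := by
            gcongr
            apply ksCost_le_of_prefix
            have h : List.replicate n r = List.replicate (t : ℕ) r ++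
                List.replicate (n - t) r := by
              rw [← List.replicate_add, Nat.add_sub_cancel' t.2.le]
            rw [blocks, h, List.append_assoc, List.prefix_append_right_inj]
            exact seqs_prefix t.2.le σ r
    refine (E_mono _ fun t _ => key t).trans (le_of_eq ?_)
    rw [E_add, E_const, E_mul, E_unif n (fun t => fs A n t (r :: σ) s), sum_fs]

/-! ### the offline cost of the blocks -/

lemma pmOpt_stay (D : ℝ≥0) (m : ℕ) (r : M) (ρ : List M) (y : Fin k → M) (hy : ∃ i, y i = r) :
    pmOpt D (List.replicate m r ++ ρ) y ≤ pmOpt D ρ y := by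
  induction m with
  | zero => simp
  | succ m ih =>
    rw [List.replicate_succ, List.cons_append, pmOpt]
    have h0 : serve y r = 0 := by
      have := serve_le_move (x := y) hy
      rw [move_self] at this
      exact le_antisymm this zero_le
    rw [h0, zero_add]
    refine (iInf_le _ y).trans ?_
    rw [move_self, mul_zero, zero_add]
    exact ih

lemma pmOpt_blocks (D : ℝ≥0) {n : ℕ} (hn : 1 ≤ n) (σ : List M) (x : Fin k → M) :
    pmOpt D (blocks n σ) x ≤ ((1 + D : ℝ≥0) : ℝ≥0∞) * ksOpt σ x := by
  induction σ generalizing x with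
  | nil => exact zero_le
  | cons r σ ih =>
    rw [ksOpt]
    have h1 : ((1 + D : ℝ≥0) : ℝ≥0∞) ≠ 0 := by
      simp
    rw [ENNReal.mul_iInf_of_ne h1 ENNReal.coe_ne_top]
    refine le_iInf fun y => ?_
    rw [ENNReal.mul_iInf_of_ne h1 ENNReal.coe_ne_top]
    refine le_iInf fun hy => ?_
    obtain ⟨m, rfl⟩ : ∃ m, n = m + 1 := ⟨n - 1, by omega⟩
    rw [blocks, List.replicate_succ, List.cons_append, pmOpt]
    calc serve x r + ⨅ z : Fin k → M, (D * move x z +
          pmOpt D (List.replicate m r ++ blocks (m + 1) σ) z)
        ≤ move x y + (D * move x y + ((1 + D : ℝ≥0) : ℝ≥0∞) * ksOpt σ y) := by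
          gcongr
          · exact serve_le_move hy
          · refine (iInf_le _ y).trans ?_
            gcongr
            exact (pmOpt_stay D m r _ y hy).trans (ih y)
      _ = ((1 + D : ℝ≥0) : ℝ≥0∞) * (move x y + ksOpt σ y) := by
          rw [ENNReal.coe_add]
          push_cast
          ring

theorem ksComp_of_pmComp [NeZero k] {c : ℝ≥0} (h : PMComp k c) (D : ℕ) (hD : 1 ≤ D) :
    KSComp k (c * (1 + (D : ℝ≥0)⁻¹)) := by
  intro M _ x
  have hD1 : (1 : ℝ≥0) ≤ (D : ℝ≥0) := by exact_mod_cast hD
  obtain ⟨A, hx, α, hα⟩ := h M (D : ℝ≥0) hD1 x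
  have : NeZero (2 * D) := ⟨by omega⟩
  refine ⟨sampler A (2 * D), hx, sampler_serves A _, (D : ℝ≥0)⁻¹ * α, fun σ => ?_⟩
  have hDne : (D : ℝ≥0) ≠ 0 := by positivity
  have hDinv : (((D : ℝ≥0)⁻¹ : ℝ≥0) : ℝ≥0∞) * ((D : ℝ≥0) : ℝ≥0∞) = 1 := by
    rw [← ENNReal.coe_mul, inv_mul_cancel₀ hDne, ENNReal.coe_one]
  have h2 : 2 * (((2 * D : ℕ) : ℝ≥0∞)⁻¹) = (((D : ℝ≥0)⁻¹ : ℝ≥0) : ℝ≥0∞) := by
    rw [ENNReal.coe_inv hDne]
    push_cast
    rw [ENNReal.mul_inv (by simp) (by simp), ← mul_assoc,
      ENNReal.mul_inv_cancel (by simp) (by simp), one_mul]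
  calc ksCost (sampler A (2 * D)) σ (A.start, none)
      ≤ ksCost A (blocks (2 * D) σ) A.start +
          2 * ((((2 * D : ℕ) : ℝ≥0∞)⁻¹) * serveSum A (blocks (2 * D) σ) A.start) :=
        sampler_none A (2 * D) σ A.start
    _ = (((D : ℝ≥0)⁻¹ : ℝ≥0) : ℝ≥0∞) * pmCost A D (blocks (2 * D) σ) A.start := by
        rw [pmCost_eq, ← mul_assoc, h2, mul_add, ← mul_assoc _ ((D : ℝ≥0) : ℝ≥0∞), hDinv, one_mul,
          add_comm]
    _ ≤ (((D : ℝ≥0)⁻¹ : ℝ≥0) : ℝ≥0∞) * (c * (((1 + D : ℝ≥0) : ℝ≥0∞) * ksOpt σ x) + α) := by
        gcongr
        refine (hα _).trans ?_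
        gcongr
        exact pmOpt_blocks (D : ℝ≥0) (by omega) σ x
    _ = ((c * (1 + (D : ℝ≥0)⁻¹) : ℝ≥0) : ℝ≥0∞) * ksOpt σ x +
          (((D : ℝ≥0)⁻¹ * α : ℝ≥0) : ℝ≥0∞) := by
        have h3 : c * (1 + (D : ℝ≥0)⁻¹) = (D : ℝ≥0)⁻¹ * (c * (1 + D)) := by
          field_simp
          ring
        rw [h3]
        push_cast
        ring

theorem le_R (k : ℕ) (hk : 1 ≤ k) : S k ≤ R k := by
  have : NeZero k := ⟨by omega⟩
  unfold R
  refine le_iInf fun c => le_iInf fun hc => ?_
  have h : ∀ D : ℕ, 1 ≤ D → S k ≤ ((c * (1 + (D : ℝ≥0)⁻¹) : ℝ≥0) : ℝ≥0∞) :=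
    fun D hD => iInf₂_le _ (ksComp_of_pmComp hc D hD)
  have hlim : Filter.Tendsto (fun D : ℕ => ((c * (1 + (D : ℝ≥0)⁻¹) : ℝ≥0) : ℝ≥0∞)) Filter.atTop
      (nhds (c : ℝ≥0∞)) := by
    rw [ENNReal.tendsto_coe]
    have h1 : Filter.Tendsto (fun D : ℕ => (D : ℝ≥0)⁻¹) Filter.atTop (nhds 0) :=
      tendsto_inv_atTop_nhds_zero_nat
    have h2 := (h1.const_add 1).const_mul c
    simpa using h2
  exact ge_of_tendsto hlim (Filter.eventually_atTop.2 ⟨1, h⟩)

end Pool.Agent.H515R3.PM
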