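import Pool.Agent.H515R3.PMDet
import Pool.Agent.H515R3.PMLow

/-!
# Comparison of the deterministic ratios of k-page migration and of the k-server problem
-/

set_option autoImplicit false
set_option linter.unusedSectionVars false

open scoped ENNReal NNReal

namespace Pool.Agent.H515R3.PM

variable {k : ℕ} {M : Type} [MetricSpace M]

/-- the state after `i` requests at `r` -/
def iter (B : DAlg k M) (r : M) : ℕ → B.State → B.State
  | 0, s => s
  | i + 1, s => B.next (iter B r i s) r

lemma iter_succ (B : DAlg k M) (r : M) (i : ℕ) (s : B.State) :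
    iter B r (i + 1) s = iter B r i (B.next s r) := by
  induction i with
  | zero => rfl
  | succ i ih =>
    change B.next (iter B r (i + 1) s) r = B.next (iter B r i (B.next s r)) r
    rw [ih]

lemma dpmCost_replicate (B : DAlg k M) (D : ℝ≥0) (r : M) (τ : List M) (n : ℕ) (s : B.State) :
    dpmCost B D (List.replicate n r ++ τ) s =
      ∑ i ∈ Finset.range n, (serve (B.pos (iter B r i s)) r +
        D * move (B.pos (iter B r i s)) (B.pos (iter B r (i + 1) s))) +
      dpmCost B D τ (iter B r n s) := by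
  induction n generalizing s with
  | zero => simp [iter]
  | succ n ih =>
    rw [List.replicate_succ, List.cons_append, dpmCost, ih, Finset.sum_range_succ']
    simp only [← iter_succ]
    change _ = _ + (serve (B.pos s) r + D * move (B.pos s) (B.pos (B.next s r))) + _
    ring

lemma move_iter (B : DAlg k M) (r : M) (n : ℕ) (s : B.State) (j : ℕ) (hj : j ≤ n) :
    move (B.pos s) (B.pos (iter B r j s)) + move (B.pos (iter B r j s)) (B.pos (iter B r n s)) ≤
      ∑ i ∈ Finset.range n, move (B.pos (iter B r i s)) (B.pos (iter B r (i + 1) s)) := by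
  induction n generalizing j with
  | zero =>
    obtain rfl : j = 0 := by omega
    simp [iter, move_self]
  | succ n ih =>
    rw [Finset.sum_range_succ]
    rcases Nat.lt_or_ge n j with h | h
    · obtain rfl : j = n + 1 := by omega
      rw [move_self, add_zero]
      have h1 := ih n le_rfl
      rw [move_self, add_zero] at h1
      refine (move_triangle _ (B.pos (iter B r n s)) _).trans ?_
      gcongr
    · have h1 := ih j h
      calc move (B.pos s) (B.pos (iter B r j s)) +
            move (B.pos (iter B r j s)) (B.pos (iter B r (n + 1) s))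
          ≤ move (B.pos s) (B.pos (iter B r j s)) +
            (move (B.pos (iter B r j s)) (B.pos (iter B r n s)) +
              move (B.pos (iter B r n s)) (B.pos (iter B r (n + 1) s))) := by
            gcongr
            exact move_triangle _ _ _
        _ = (move (B.pos s) (B.pos (iter B r j s)) +
            move (B.pos (iter B r j s)) (B.pos (iter B r n s))) +
              move (B.pos (iter B r n s)) (B.pos (iter B r (n + 1) s)) := by ring
        _ ≤ _ := by gcongr

lemma exists_next [NeZero k] (B : DAlg k M) (D : ℕ) (hD : 1 ≤ D) (s : B.State) (r : M) :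
    ∃ z : Fin k → M, (∃ i, z i = r) ∧ ∀ (z0 : Fin k → M) (τ : List M),
      (D : ℝ≥0∞) * (move z0 z + move z (B.pos (iter B r (2 * D) s))) +
        dpmCost B (D : ℝ≥0) τ (iter B r (2 * D) s) ≤
      D * move z0 (B.pos s) + dpmCost B (D : ℝ≥0) (List.replicate (2 * D) r ++ τ) s := by
  obtain ⟨j, hj, hmin⟩ := Finset.exists_min_image (Finset.range (2 * D))
    (fun i => serve (B.pos (iter B r i s)) r) ⟨0, Finset.mem_range.2 (by omega)⟩
  rw [Finset.mem_range] at hj
  obtain ⟨z, hz, hzm⟩ := exists_upd (B.pos (iter B r j s)) r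
  refine ⟨z, hz, fun z0 τ => ?_⟩
  rw [dpmCost_replicate, Finset.sum_add_distrib, ← Finset.mul_sum]
  have h1 := move_iter B r (2 * D) s j hj.le
  have h2 : (2 * D : ℝ≥0∞) * serve (B.pos (iter B r j s)) r ≤
      ∑ i ∈ Finset.range (2 * D), serve (B.pos (iter B r i s)) r := by
    calc (2 * D : ℝ≥0∞) * serve (B.pos (iter B r j s)) r
        = ∑ i ∈ Finset.range (2 * D), serve (B.pos (iter B r j s)) r := by
          rw [Finset.sum_const, Finset.card_range, nsmul_eq_mul]
          push_cast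
          rfl
      _ ≤ _ := Finset.sum_le_sum fun i hi => hmin i hi
  set sj := iter B r j s
  set sn := iter B r (2 * D) s
  have h3 : move z0 z ≤ move z0 (B.pos s) + (move (B.pos s) (B.pos sj) + serve (B.pos sj) r) := by
    refine (move_triangle z0 (B.pos s) z).trans ?_
    gcongr
    refine (move_triangle _ (B.pos sj) z).trans ?_
    rw [hzm]
  have h4 : move z (B.pos sn) ≤ serve (B.pos sj) r + move (B.pos sj) (B.pos sn) := by
    refine (move_triangle z (B.pos sj) _).trans ?_
    rw [move_comm z, hzm]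
  have hc : (((D : ℝ≥0) : ℝ≥0∞)) = (D : ℝ≥0∞) := by push_cast; rfl
  rw [hc]
  calc (D : ℝ≥0∞) * (move z0 z + move z (B.pos sn)) + dpmCost B (D : ℝ≥0) τ sn
      ≤ (D : ℝ≥0∞) * ((move z0 (B.pos s) + (move (B.pos s) (B.pos sj) + serve (B.pos sj) r)) +
        (serve (B.pos sj) r + move (B.pos sj) (B.pos sn))) + dpmCost B (D : ℝ≥0) τ sn := by gcongr
    _ = D * move z0 (B.pos s) + ((2 * D) * serve (B.pos sj) r +
        D * (move (B.pos s) (B.pos sj) + move (B.pos sj) (B.pos sn)) +
          dpmCost B (D : ℝ≥0) τ sn) := by ring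
    _ ≤ _ := by gcongr

/-- the `k`-server algorithm obtained from a page migration algorithm for page size `D`: repeat
every request `2 D` times and use the configuration with the least service cost -/
noncomputable def serverOf [NeZero k] (B : DAlg k M) (D : ℕ) (hD : 1 ≤ D) : DAlg k M where
  State := B.State × (Fin k → M)
  start := (B.start, B.pos B.start)
  next := fun s r => (iter B r (2 * D) s.1, (exists_next B D hD s.1 r).choose)
  pos := fun s => s.2

lemma serverOf_cost [NeZero k] (B : DAlg k M) (D : ℕ) (hD : 1 ≤ D) (σ : List M) (s : B.State)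
    (z : Fin k → M) :
    (D : ℝ≥0∞) * dksCost (serverOf B D hD) σ (s, z) ≤
      D * move z (B.pos s) + dpmCost B (D : ℝ≥0) (blocks (2 * D) σ) s := by
  induction σ generalizing s z with
  | nil => simp [dksCost]
  | cons r σ ih =>
    set z' := (exists_next B D hD s r).choose with hz'
    have h1 := (exists_next B D hD s r).choose_spec.2 z (blocks (2 * D) σ)
    have h2 := ih (iter B r (2 * D) s) z'
    calc (D : ℝ≥0∞) * dksCost (serverOf B D hD) (r :: σ) (s, z)
        = D * move z z' + D * dksCost (serverOf B D hD) σ (iter B r (2 * D) s, z') := by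
          rw [← mul_add]
          rfl
      _ ≤ D * move z z' + (D * move z' (B.pos (iter B r (2 * D) s)) +
          dpmCost B (D : ℝ≥0) (blocks (2 * D) σ) (iter B r (2 * D) s)) := by gcongr
      _ = D * (move z z' + move z' (B.pos (iter B r (2 * D) s))) +
          dpmCost B (D : ℝ≥0) (blocks (2 * D) σ) (iter B r (2 * D) s) := by ring
      _ ≤ _ := h1

theorem dksComp_of_dpmComp [NeZero k] {c : ℝ≥0} (h : DPMComp k c) (D : ℕ) (hD : 1 ≤ D) :
    DKSComp k (c * (1 + (D : ℝ≥0)⁻¹)) := by
  intro M _ x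
  have hD1 : (1 : ℝ≥0) ≤ (D : ℝ≥0) := by exact_mod_cast hD
  obtain ⟨B, hx, α, hα⟩ := h M (D : ℝ≥0) hD1 x
  refine ⟨serverOf B D hD, hx, fun s r => (exists_next B D hD s.1 r).choose_spec.1,
    (D : ℝ≥0)⁻¹ * α, fun σ => ?_⟩
  have hDne : (D : ℝ≥0) ≠ 0 := by positivity
  have hDinv : (((D : ℝ≥0)⁻¹ : ℝ≥0) : ℝ≥0∞) * (D : ℝ≥0∞) = 1 := by
    have : ((D : ℝ≥0∞)) = ((D : ℝ≥0) : ℝ≥0∞) := by push_cast; rfl
    rw [this, ← ENNReal.coe_mul, inv_mul_cancel₀ hDne, ENNReal.coe_one]
  calc dksCost (serverOf B D hD) σ (B.start, B.pos B.start)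
      = (((D : ℝ≥0)⁻¹ : ℝ≥0) : ℝ≥0∞) *
          ((D : ℝ≥0∞) * dksCost (serverOf B D hD) σ (B.start, B.pos B.start)) := by
        rw [← mul_assoc, hDinv, one_mul]
    _ ≤ (((D : ℝ≥0)⁻¹ : ℝ≥0) : ℝ≥0∞) *
          (D * move (B.pos B.start) (B.pos B.start) +
            dpmCost B (D : ℝ≥0) (blocks (2 * D) σ) B.start) := by
        gcongr
        exact serverOf_cost B D hD σ _ _
    _ = (((D : ℝ≥0)⁻¹ : ℝ≥0) : ℝ≥0∞) * dpmCost B (D : ℝ≥0) (blocks (2 * D) σ) B.start := by
        rw [move_self, mul_zero, zero_add]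
    _ ≤ (((D : ℝ≥0)⁻¹ : ℝ≥0) : ℝ≥0∞) * (c * (((1 + D : ℝ≥0) : ℝ≥0∞) * ksOpt σ x) + α) := by
        gcongr
        refine (hα _).trans ?_
        gcongr
        exact pmOpt_blocks (D : ℝ≥0) (by omega) σ x
    _ = ((c * (1 + (D : ℝ≥0)⁻¹) : ℝ≥0) : ℝ≥0∞) * ksOpt σ x +
          (((D : ℝ≥0)⁻¹ * α : ℝ≥0) : ℝ≥0∞) := by
        have h3 : c * (1 + (D : ℝ≥0)⁻¹) = (D : ℝ≥0)⁻¹ * (c * (1 + D)) := by
          field_simp
          ring
        rw [h3]
        push_cast
        ring

theorem DS_le_DR (k : ℕ) (hk : 1 ≤ k) : DS k ≤ DR k := by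
  have : NeZero k := ⟨by omega⟩
  unfold DR
  refine le_iInf fun c => le_iInf fun hc => ?_
  have h : ∀ D : ℕ, 1 ≤ D → DS k ≤ ((c * (1 + (D : ℝ≥0)⁻¹) : ℝ≥0) : ℝ≥0∞) :=
    fun D hD => iInf₂_le _ (dksComp_of_dpmComp hc D hD)
  have hlim : Filter.Tendsto (fun D : ℕ => ((c * (1 + (D : ℝ≥0)⁻¹) : ℝ≥0) : ℝ≥0∞)) Filter.atTop
      (nhds (c : ℝ≥0∞)) := by
    rw [ENNReal.tendsto_coe]
    have h1 : Filter.Tendsto (fun D : ℕ => (D : ℝ≥0)⁻¹) Filter.atTop (nhds 0) :=
      tendsto_inv_atTop_nhds_zero_nat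
    have h2 := (h1.const_add 1).const_mul c
    simpa using h2
  exact ge_of_tendsto hlim (Filter.eventually_atTop.2 ⟨1, h⟩)

/-! ### deterministic algorithms are randomized algorithms -/

/-- a deterministic algorithm as a randomized algorithm -/
@[reducible] noncomputable def toAlg (A : DAlg k M) : Alg k M where
  State := A.State
  start := A.start
  step := fun s r => PMF.pure (A.next s r)
  pos := A.pos

lemma ksCost_toAlg (A : DAlg k M) (σ : List M) (s : A.State) :
    ksCost (toAlg A) σ s = dksCost A σ s := by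
  induction σ generalizing s with
  | nil => rfl
  | cons r σ ih =>
    rw [ksCost_cons, dksCost]
    change E (PMF.pure (A.next s r)) _ = _
    rw [E_pure, ih]

lemma ksComp_of_dksComp {c : ℝ≥0} (h : DKSComp k c) : KSComp k c := by
  intro M _ x
  obtain ⟨A, hx, hA, α, hα⟩ := h M x
  refine ⟨toAlg A, hx, ?_, α, fun σ => ?_⟩
  · intro s r s' hs'
    have h1 : s' = A.next s r := by
      have : s' ∈ (PMF.pure (A.next s r)).support := hs'
      simpa using this
    subst h1
    exact hA s r
  · rw [ksCost_toAlg]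
    exact hα σ

theorem S_le_DS (k : ℕ) : S k ≤ DS k :=
  le_iInf fun c => le_iInf fun hc => iInf₂_le c (ksComp_of_dksComp hc)

/-! ### ratios are at least one -/

lemma serve_real [NeZero k] (n : ℕ) : serve (fun _ : Fin k => (0 : ℝ)) (n : ℝ) = n := by
  unfold serve
  rw [iInf_const, edist_dist, Real.dist_eq, zero_sub, abs_neg, Nat.abs_cast,
    ENNReal.ofReal_natCast]

lemma one_le_of_pmComp [NeZero k] {c : ℝ≥0} (h : PMComp k c) : 1 ≤ c := by
  by_contra hc
  rw [not_le] at hc
  obtain ⟨H, hx, α, hα⟩ := h ℝ 1 le_rfl (fun _ => 0)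
  have key : ∀ n : ℕ, (n : ℝ≥0) ≤ c * n + α := by
    intro n
    have h1 := hα [(n : ℝ)]
    have h2 : (n : ℝ≥0∞) ≤ pmCost H 1 [(n : ℝ)] H.start := by
      rw [pmCost_cons, hx, serve_real]
      exact le_self_add
    have h3 : pmOpt 1 [(n : ℝ)] (fun _ : Fin k => (0 : ℝ)) ≤ n := by
      rw [pmOpt, serve_real]
      calc (n : ℝ≥0∞) + ⨅ y : Fin k → ℝ, (((1 : ℝ≥0) : ℝ≥0∞) * move (fun _ => (0 : ℝ)) y +
            pmOpt 1 [] y)
          ≤ n + (((1 : ℝ≥0) : ℝ≥0∞) * move (fun _ : Fin k => (0 : ℝ)) (fun _ => 0) +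
            pmOpt 1 [] (fun _ : Fin k => (0 : ℝ))) := by
            gcongr
            exact iInf_le _ _
        _ = n := by simp [move_self, pmOpt]
    have h4 : (n : ℝ≥0∞) ≤ c * n + α := by
      refine (h2.trans h1).trans ?_
      gcongr
    exact_mod_cast h4
  obtain ⟨n, hn⟩ := exists_nat_gt ((α : ℝ) / (1 - c))
  have hc' : (0 : ℝ) < 1 - c := by
    have : (c : ℝ) < 1 := by exact_mod_cast hc
    linarith
  rw [div_lt_iff₀ hc'] at hn
  have h5 : (n : ℝ) ≤ c * n + α := by exact_mod_cast key n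
  nlinarith

theorem one_le_R (k : ℕ) (hk : 1 ≤ k) : 1 ≤ R k := by
  have : NeZero k := ⟨by omega⟩
  unfold R
  refine le_iInf fun c => le_iInf fun hc => ?_
  exact_mod_cast one_le_of_pmComp hc

theorem DR_le (k : ℕ) (hk : 1 ≤ k) : DR k ≤ 3 * DS k * R k := by
  have : NeZero k := ⟨by omega⟩
  have hR : R k ≠ 0 := (lt_of_lt_of_le one_pos (one_le_R k hk)).ne'
  by_cases hDS : DS k = ∞
  · rw [hDS, ENNReal.mul_top (by norm_num), ENNReal.top_mul hR]
    exact le_top
  have hRtop : R k ≠ ∞ := by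
    refine ne_top_of_le_ne_top (ENNReal.mul_ne_top (by norm_num : (3 : ℝ≥0∞) ≠ ∞) hDS)
      ((R_le k hk).trans ?_)
    gcongr
    exact S_le_DS k
  -- for fixed c
  have h1 : ∀ c : ℝ≥0, DKSComp k c → DR k ≤ 3 * c * R k := by
    intro c hc
    by_cases hc0 : c = 0
    · subst hc0
      -- some finite ratio exists for the randomized problem
      obtain ⟨β, hβ⟩ : ∃ β : ℝ≥0, PMComp k β := by
        by_contra hcon
        push Not at hcon
        apply hRtop
        unfold R
        simp [hcon]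
      have h2 := dpmComp_of hc hβ
      have h3 : DR k ≤ ((3 * 0 * β : ℝ≥0) : ℝ≥0∞) := iInf₂_le _ h2
      simpa using h3
    · unfold R
      rw [ENNReal.mul_iInf_of_ne (by simp [hc0]) (ENNReal.mul_ne_top (by norm_num)
        ENNReal.coe_ne_top)]
      refine le_iInf fun β => ?_
      by_cases hβ : PMComp k β
      · rw [iInf_pos hβ]
        refine (iInf₂_le _ (dpmComp_of hc hβ)).trans (le_of_eq ?_)
        push_cast
        rfl
      · rw [iInf_neg hβ, ENNReal.mul_top (by simp [hc0])]
        exact le_top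
  have h2 : 3 * DS k * R k = (3 * R k) * DS k := by ring
  rw [h2]
  have h3 : (3 : ℝ≥0∞) * R k ≠ 0 := mul_ne_zero (by norm_num) hR
  have h4 : (3 : ℝ≥0∞) * R k ≠ ∞ := ENNReal.mul_ne_top (by norm_num) hRtop
  unfold DS
  rw [ENNReal.mul_iInf_of_ne h3 h4]
  refine le_iInf fun c => ?_
  by_cases hc : DKSComp k c
  · rw [iInf_pos hc]
    refine (h1 c hc).trans (le_of_eq ?_)
    ring
  · rw [iInf_neg hc, ENNReal.mul_top h3]
    exact le_top

end Pool.Agent.H515R3.PM
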