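import Pool.Agent.H515R3.PMDefs

/-!
# `R(k) ≤ 3 S(k)`: forward every request to a k-server algorithm with probability `1/(2D)`
-/

set_option autoImplicit false
set_option linter.unusedSectionVars false

open scoped ENNReal NNReal

namespace Pool.Agent.H515R3.PM

variable {k : ℕ} {M : Type} [MetricSpace M]

/-! ### random subsequences -/

/-- expectation of `F τ` for the random subsequence `τ` which keeps every term with
probability `p` -/
noncomputable def Sub (p : ℝ≥0∞) : List M → (List M → ℝ≥0∞) → ℝ≥0∞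
  | [], F => F []
  | r :: σ, F => p * Sub p σ (fun τ => F (r :: τ)) + (1 - p) * Sub p σ F

lemma Sub_mono (p : ℝ≥0∞) (σ : List M) {F G : List M → ℝ≥0∞} (h : ∀ τ, F τ ≤ G τ) :
    Sub p σ F ≤ Sub p σ G := by
  induction σ generalizing F G with
  | nil => exact h []
  | cons r σ ih =>
    unfold Sub
    gcongr
    · exact ih fun τ => h _
    · exact ih h

lemma Sub_add (p : ℝ≥0∞) (σ : List M) (F G : List M → ℝ≥0∞) :
    Sub p σ (fun τ => F τ + G τ) = Sub p σ F + Sub p σ G := by
  induction σ generalizing F G with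
  | nil => rfl
  | cons r σ ih =>
    unfold Sub
    rw [ih, ih]
    ring

lemma Sub_mul (p : ℝ≥0∞) (σ : List M) (c : ℝ≥0∞) (F : List M → ℝ≥0∞) :
    Sub p σ (fun τ => c * F τ) = c * Sub p σ F := by
  induction σ generalizing F with
  | nil => rfl
  | cons r σ ih =>
    unfold Sub
    rw [ih, ih]
    ring

lemma Sub_const {p : ℝ≥0∞} (hp : p ≤ 1) (σ : List M) (c : ℝ≥0∞) :
    Sub p σ (fun _ => c) = c := by
  induction σ with
  | nil => rfl
  | cons r σ ih =>
    unfold Sub
    rw [ih, ← add_mul, add_tsub_cancel_of_le hp, one_mul]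

lemma Sub_tsum (p : ℝ≥0∞) (σ : List M) {ι : Type} (F : ι → List M → ℝ≥0∞) :
    Sub p σ (fun τ => ∑' i, F i τ) = ∑' i, Sub p σ (F i) := by
  induction σ generalizing F with
  | nil => rfl
  | cons r σ ih =>
    unfold Sub
    rw [ih, ih F, ENNReal.tsum_add, ENNReal.tsum_mul_left,
      ENNReal.tsum_mul_left]

lemma Sub_E (p : ℝ≥0∞) (σ : List M) {ι : Type} (q : PMF ι) (F : ι → List M → ℝ≥0∞) :
    Sub p σ (fun τ => E q (fun i => F i τ)) = E q (fun i => Sub p σ (F i)) := by
  unfold E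
  rw [Sub_tsum p σ (fun i τ => q i * F i τ)]
  refine tsum_congr fun i => ?_
  rw [Sub_mul]

/-! ### the algorithm -/

/-- a biased coin -/
noncomputable def coin (p : ℝ≥0) (hp : p ≤ 1) : PMF Bool :=
  PMF.ofFintype (fun b => cond b (p : ℝ≥0∞) (1 - p)) (by
    simp only [Fintype.sum_bool, cond_true, cond_false]
    exact add_tsub_cancel_of_le (by exact_mod_cast hp))

lemma E_coin (p : ℝ≥0) (hp : p ≤ 1) (f : Bool → ℝ≥0∞) :
    E (coin p hp) f = p * f true + (1 - p) * f false := by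
  unfold E coin
  rw [tsum_fintype]
  simp

/-- the page migration algorithm which forwards every request with probability `p` -/
@[reducible] noncomputable def forward (A : Alg k M) (p : ℝ≥0) (hp : p ≤ 1) : Alg k M where
  State := A.State
  start := A.start
  step := fun s r => (coin p hp).bind fun b => cond b (A.step s r) (PMF.pure s)
  pos := A.pos

lemma E_forward (A : Alg k M) (p : ℝ≥0) (hp : p ≤ 1) (s : A.State) (r : M)
    (f : A.State → ℝ≥0∞) :
    E ((forward A p hp).step s r) f = p * E (A.step s r) f + (1 - p) * f s := by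
  change E ((coin p hp).bind fun b => cond b (A.step s r) (PMF.pure s)) f = _
  rw [E_bind, E_coin]
  simp only [cond_true, cond_false, E_pure]

/-- cost of the `k`-server algorithm on the random subsequence -/
lemma Sub_ksCost_cons (A : Alg k M) {p : ℝ≥0} (hp : p ≤ 1) (r : M) (σ : List M) (s : A.State) :
    Sub (p : ℝ≥0∞) (r :: σ) (fun τ => ksCost A τ s) =
      p * E (A.step s r) (fun s' => move (A.pos s) (A.pos s') +
        Sub (p : ℝ≥0∞) σ (fun τ => ksCost A τ s')) +
      (1 - p) * Sub (p : ℝ≥0∞) σ (fun τ => ksCost A τ s) := by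
  have hp' : (p : ℝ≥0∞) ≤ 1 := by exact_mod_cast hp
  rw [Sub]
  congr 2
  simp only [ksCost_cons]
  rw [Sub_E (p : ℝ≥0∞) σ (A.step s r)
    (fun s' τ => move (A.pos s) (A.pos s') + ksCost A τ s')]
  congr 1
  funext s'
  rw [Sub_add, Sub_const hp']

lemma pmCost_forward {A : Alg k M} (hA : Serves A) {p D : ℝ≥0} (hp : p ≤ 1) (hp0 : p ≠ 0)
    (σ : List M) (s : A.State) :
    pmCost (forward A p hp) D σ s ≤
      (p⁻¹ + D : ℝ≥0) * Sub (p : ℝ≥0∞) σ (fun τ => ksCost A τ s) := by
  induction σ generalizing s with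
  | nil => exact zero_le
  | cons r σ ih =>
    have hser : serve (A.pos s) r ≤ E (A.step s r) (fun s' => move (A.pos s) (A.pos s')) := by
      calc serve (A.pos s) r = E (A.step s r) (fun _ => serve (A.pos s) r) := (E_const _ _).symm
        _ ≤ _ := E_mono _ fun s' hs' => serve_le_move (hA s r s' hs')
    have hinv : ((p⁻¹ : ℝ≥0) : ℝ≥0∞) * p = 1 := by
      rw [← ENNReal.coe_mul, inv_mul_cancel₀ hp0, ENNReal.coe_one]
    rw [pmCost_cons, E_forward, Sub_ksCost_cons A hp]
    change serve (A.pos s) r + (p * E (A.step s r) (fun s' => D * move (A.pos s) (A.pos s') +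
      pmCost (forward A p hp) D σ s') + (1 - p) * (D * move (A.pos s) (A.pos s) +
      pmCost (forward A p hp) D σ s)) ≤ _
    rw [move_self, mul_zero, zero_add, E_add, E_mul, E_add]
    have h1 : serve (A.pos s) r ≤ ((p⁻¹ : ℝ≥0) : ℝ≥0∞) *
        (p * E (A.step s r) (fun s' => move (A.pos s) (A.pos s'))) := by
      rw [← mul_assoc, hinv, one_mul]
      exact hser
    have h2 : E (A.step s r) (fun s' => pmCost (forward A p hp) D σ s') ≤
        (p⁻¹ + D : ℝ≥0) * E (A.step s r) (fun s' => Sub (p : ℝ≥0∞) σ (fun τ => ksCost A τ s')) := by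
      rw [← E_mul]
      exact E_mono _ fun s' _ => ih s'
    calc serve (A.pos s) r + (p * (D * E (A.step s r) (fun s' => move (A.pos s) (A.pos s')) +
          E (A.step s r) (fun s' => pmCost (forward A p hp) D σ s')) +
          (1 - p) * pmCost (forward A p hp) D σ s)
        ≤ ((p⁻¹ : ℝ≥0) : ℝ≥0∞) * (p * E (A.step s r) (fun s' => move (A.pos s) (A.pos s'))) +
          (p * (D * E (A.step s r) (fun s' => move (A.pos s) (A.pos s')) +
          (p⁻¹ + D : ℝ≥0) * E (A.step s r)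
            (fun s' => Sub (p : ℝ≥0∞) σ (fun τ => ksCost A τ s'))) +
          (1 - p) * ((p⁻¹ + D : ℝ≥0) * Sub (p : ℝ≥0∞) σ (fun τ => ksCost A τ s))) := by
          gcongr
          exact ih s
      _ = (p⁻¹ + D : ℝ≥0) * (p * (E (A.step s r) (fun s' => move (A.pos s) (A.pos s')) +
            E (A.step s r) (fun s' => Sub (p : ℝ≥0∞) σ (fun τ => ksCost A τ s'))) +
            (1 - p) * Sub (p : ℝ≥0∞) σ (fun τ => ksCost A τ s)) := by
          rw [ENNReal.coe_add]
          ring

/-! ### the offline optimum of the random subsequence -/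

lemma ksOpt_lip (σ : List M) (x z : Fin k → M) : ksOpt σ z ≤ move z x + ksOpt σ x := by
  cases σ with
  | nil => simp [ksOpt]
  | cons r σ =>
    unfold ksOpt
    simp only [ENNReal.add_iInf]
    refine le_iInf fun y => le_iInf fun hy => ?_
    refine (iInf₂_le y hy).trans ?_
    rw [← add_assoc]
    gcongr
    exact move_triangle z x y

lemma ksOpt_cons_le [NeZero k] (r : M) (σ : List M) (x : Fin k → M) :
    ksOpt (r :: σ) x ≤ 2 * serve x r + ksOpt σ x := by
  obtain ⟨y, hy, hm⟩ := exists_upd x r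
  calc ksOpt (r :: σ) x ≤ move x y + ksOpt σ y := iInf₂_le y hy
    _ ≤ move x y + (move y x + ksOpt σ x) := by
        gcongr
        exact ksOpt_lip σ x y
    _ = 2 * serve x r + ksOpt σ x := by
        rw [move_comm y x, hm]
        ring

lemma Sub_ksOpt_le [NeZero k] {p D : ℝ≥0} (hp : p ≤ 1) (hpD : 2 * (D * p) = 1) (σ : List M)
    (x : Fin k → M) : D * Sub (p : ℝ≥0∞) σ (fun τ => ksOpt τ x) ≤ pmOpt D σ x := by
  have hp' : (p : ℝ≥0∞) ≤ 1 := by exact_mod_cast hp
  have hpD' : 2 * ((D : ℝ≥0∞) * p) = 1 := by exact_mod_cast hpD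
  induction σ generalizing x with
  | nil => simp [Sub, ksOpt, pmOpt]
  | cons r σ ih =>
    have h1 : D * Sub (p : ℝ≥0∞) (r :: σ) (fun τ => ksOpt τ x) ≤
        serve x r + D * Sub (p : ℝ≥0∞) σ (fun τ => ksOpt τ x) := by
      have h2 : Sub (p : ℝ≥0∞) σ (fun τ => ksOpt (r :: τ) x) ≤
          2 * serve x r + Sub (p : ℝ≥0∞) σ (fun τ => ksOpt τ x) := by
        refine (Sub_mono _ σ fun τ => ksOpt_cons_le r τ x).trans (le_of_eq ?_)
        rw [Sub_add, Sub_const hp']
      rw [Sub]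
      calc (D : ℝ≥0∞) * (p * Sub (p : ℝ≥0∞) σ (fun τ => ksOpt (r :: τ) x) +
            (1 - p) * Sub (p : ℝ≥0∞) σ (fun τ => ksOpt τ x))
          ≤ (D : ℝ≥0∞) * (p * (2 * serve x r + Sub (p : ℝ≥0∞) σ (fun τ => ksOpt τ x)) +
            (1 - p) * Sub (p : ℝ≥0∞) σ (fun τ => ksOpt τ x)) := by gcongr
        _ = 2 * (D * p) * serve x r + D * ((p + (1 - p)) * Sub (p : ℝ≥0∞) σ
              (fun τ => ksOpt τ x)) := by ring
        _ = serve x r + D * Sub (p : ℝ≥0∞) σ (fun τ => ksOpt τ x) := by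
            rw [hpD', add_tsub_cancel_of_le hp', one_mul, one_mul]
    refine h1.trans ?_
    rw [pmOpt]
    gcongr
    refine le_iInf fun y => ?_
    calc D * Sub (p : ℝ≥0∞) σ (fun τ => ksOpt τ x)
        ≤ D * (move x y + Sub (p : ℝ≥0∞) σ (fun τ => ksOpt τ y)) := by
          gcongr
          refine (Sub_mono _ σ fun τ => ksOpt_lip τ y x).trans (le_of_eq ?_)
          rw [Sub_add, Sub_const hp']
      _ = D * move x y + D * Sub (p : ℝ≥0∞) σ (fun τ => ksOpt τ y) := by ring
      _ ≤ _ := by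
          gcongr
          exact ih y

theorem pmComp_of_ksComp [NeZero k] {c : ℝ≥0} (h : KSComp k c) : PMComp k (3 * c) := by
  intro M _ D hD x
  obtain ⟨A, hx, hA, α, hα⟩ := h M x
  have hD0 : (0 : ℝ≥0) < D := lt_of_lt_of_le one_pos hD
  set p : ℝ≥0 := (2 * D)⁻¹ with hpdef
  have hp : p ≤ 1 := by
    rw [hpdef]
    apply inv_le_one_of_one_le₀
    calc (1 : ℝ≥0) ≤ D := hD
      _ ≤ 2 * D := le_mul_of_one_le_left (zero_le) one_le_two
  have hp0 : p ≠ 0 := inv_ne_zero (mul_ne_zero two_ne_zero hD0.ne')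
  have hpD : 2 * (D * p) = 1 := by
    rw [← mul_assoc, hpdef, mul_inv_cancel₀ (mul_ne_zero two_ne_zero hD0.ne')]
  have hp' : (p : ℝ≥0∞) ≤ 1 := by exact_mod_cast hp
  refine ⟨forward A p hp, hx, 3 * D * α, fun σ => ?_⟩
  have h3 : p⁻¹ + D = 3 * D := by
    rw [hpdef, inv_inv]
    ring
  calc pmCost (forward A p hp) D σ A.start
      ≤ (p⁻¹ + D : ℝ≥0) * Sub (p : ℝ≥0∞) σ (fun τ => ksCost A τ A.start) :=
        pmCost_forward hA hp hp0 σ A.start
    _ ≤ (3 * D : ℝ≥0) * Sub (p : ℝ≥0∞) σ (fun τ => c * ksOpt τ x + α) := by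
        rw [h3]
        gcongr
        exact Sub_mono _ σ hα
    _ = 3 * c * (D * Sub (p : ℝ≥0∞) σ (fun τ => ksOpt τ x)) + 3 * D * α := by
        rw [Sub_add, Sub_const hp', Sub_mul]
        push_cast
        ring
    _ ≤ 3 * c * pmOpt D σ x + 3 * D * α := by
        gcongr
        exact Sub_ksOpt_le hp hpD σ x
    _ = ((3 * c : ℝ≥0) : ℝ≥0∞) * pmOpt D σ x + ((3 * D * α : ℝ≥0) : ℝ≥0∞) := by
        push_cast
        ring

theorem R_le (k : ℕ) (hk : 1 ≤ k) : R k ≤ 3 * S k := by
  have : NeZero k := ⟨by omega⟩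
  unfold S
  rw [ENNReal.mul_iInf_of_ne (by norm_num) (by norm_num)]
  refine le_iInf fun c => ?_
  by_cases hc : KSComp k c
  · rw [iInf_pos hc]
    refine (iInf₂_le (3 * c) (pmComp_of_ksComp hc)).trans (le_of_eq ?_)
    push_cast
    rfl
  · rw [iInf_neg hc]
    simp

end Pool.Agent.H515R3.PM
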